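import Pool.Agent.Helper886.HCube.Main

set_option autoImplicit false
open scoped BigOperators

namespace Pool.Agent.Helper886.HCube

open Function

/-- boolean functions as finite sets -/
def boolSet (m : ℕ) : (Fin m → Bool) ≃ Finset (Fin m) where
  toFun x := Finset.univ.filter (fun i => x i = true)
  invFun s := fun i => decide (i ∈ s)
  left_inv x := by funext i; simp
  right_inv s := by ext i; simp

theorem card_wt (m k : ℕ) : Nat.card {x : Fin m → Bool // wt x = k} = m.choose k := by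
  have e : {x : Fin m → Bool // wt x = k} ≃ {s : Finset (Fin m) // s.card = k} :=
    (boolSet m).subtypeEquiv (fun x => Iff.rfl)
  rw [Nat.card_congr e, Nat.card_eq_fintype_card, Fintype.card_finset_len, Fintype.card_fin]

theorem wt_compl {m : ℕ} (x : Fin m → Bool) : wt (fun i => !(x i)) + wt x = m := by
  unfold wt
  have h1 := Finset.card_filter_add_card_filter_not (s := (Finset.univ : Finset (Fin m)))
    (fun i => x i = true)
  rw [Finset.card_univ, Fintype.card_fin] at h1
  rw [add_comm]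
  convert h1 using 3
  ext i
  simp

theorem card_upper (h : ℕ) :
    Nat.card {x : Fin (2 * h + 1) → Bool // h + 1 ≤ wt x} = 2 ^ (2 * h) := by
  classical
  have e : {x : Fin (2 * h + 1) → Bool // h + 1 ≤ wt x} ≃
      {x : Fin (2 * h + 1) → Bool // ¬ (h + 1 ≤ wt x)} := by
    refine Equiv.subtypeEquiv (Equiv.arrowCongr (Equiv.refl _) Equiv.boolNot) ?_
    intro x
    have h1 : (Equiv.arrowCongr (Equiv.refl _) Equiv.boolNot) x = fun i => !(x i) := rfl
    rw [h1]
    have := wt_compl x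
    omega
  have h2 : Nat.card {x : Fin (2 * h + 1) → Bool // h + 1 ≤ wt x} +
      Nat.card {x : Fin (2 * h + 1) → Bool // ¬ (h + 1 ≤ wt x)} = 2 ^ (2 * h + 1) := by
    rw [← Nat.card_sum, Nat.card_congr (Equiv.sumCompl _)]
    simp
  rw [← Nat.card_congr e, pow_succ] at h2
  omega

theorem card_ZZ (h : ℕ) :
    Nat.card {q : QQ h // q ∈ ZZ h} = (2 * h + 1).choose (h + 1) * 2 ^ (2 * h) := by
  have e : {q : QQ h // q ∈ ZZ h} ≃ {x : Fin (2 * h + 1) → Bool // wt x = h + 1} ×
      {x : Fin (2 * h + 1) → Bool // h + 1 ≤ wt x} :=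
    { toFun := fun q => (⟨q.1.1, q.2.1⟩, ⟨q.1.2, q.2.2⟩)
      invFun := fun r => ⟨(r.1.1, r.2.1), r.1.2, r.2.2⟩
      left_inv := fun _ => rfl
      right_inv := fun _ => rfl }
  rw [Nat.card_congr e, Nat.card_prod, card_wt, card_upper]

theorem card_QQ (h : ℕ) : Fintype.card (QQ h) = 2 * 2 ^ (4 * h + 1) := by
  rw [Fintype.card_prod]
  simp only [Fintype.card_pi, Fintype.card_bool, Finset.prod_const, Finset.card_univ,
    Fintype.card_fin]
  rw [← pow_add, ← pow_succ']
  congr 1
  omega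

theorem card_nZZ (h : ℕ) : Nat.card {q : QQ h // q ∉ ZZ h} =
    2 ^ (4 * h + 2) - (2 * h + 1).choose (h + 1) * 2 ^ (2 * h) := by
  classical
  have h2 : Nat.card {q : QQ h // q ∈ ZZ h} + Nat.card {q : QQ h // ¬ (q ∈ ZZ h)} =
      2 ^ (4 * h + 2) := by
    rw [← Nat.card_sum, Nat.card_congr (Equiv.sumCompl _), Nat.card_eq_fintype_card, card_QQ,
      ← pow_succ']
  rw [card_ZZ] at h2
  omega

theorem card_ne (c : ℕ) : Nat.card {g : Fin c → Bool // g ≠ fun _ => false} = 2 ^ c - 1 := by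
  classical
  have h2 : Nat.card {g : Fin c → Bool // g = fun _ => false} +
      Nat.card {g : Fin c → Bool // ¬ (g = fun _ => false)} = 2 ^ c := by
    rw [← Nat.card_sum, Nat.card_congr (Equiv.sumCompl _)]
    simp
  have h3 : Nat.card {g : Fin c → Bool // g = fun _ => false} = 1 := by simp
  rw [h3] at h2
  show Nat.card {g : Fin c → Bool // ¬ (g = fun _ => false)} = _
  omega

theorem count_Q (h : ℕ) (s : Bool) : (((h : ℝ) + 1) / Real.exp 1) ^ (2 ^ (4 * h + 1)) ≤
    (Nat.card (OInv (piQ (h := h)) (Fwd h) s) : ℝ) := by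
  obtain ⟨W, h0, hr, hc, hW, hb⟩ := flow h
  exact count_inv piQ (Fwd h) (fun _ _ hf => fwd_piQ hf) ((h : ℝ) + 1) (by positivity) W h0 hr hc
    hW hb s _ (card_QQ h)

theorem flip_injective {d : ℕ} (p : Fin d → Bool) : Injective (fun i => flip i p) := by
  intro i j hij
  by_contra hne
  have h1 := congrFun hij i
  simp only at h1
  rw [flip_same, flip_ne hne] at h1
  cases h2 : p i <;> simp [h2] at h1

theorem count_P {d : ℕ} (hd : 1 ≤ d) (s : Bool) : ((d : ℝ) / Real.exp 1) ^ (2 ^ (d - 1)) ≤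
    (Nat.card (OInv (piP (d := d)) RP s) : ℝ) := by
  classical
  have hd0 : (0 : ℝ) < d := by exact_mod_cast hd
  have hsum : ∀ p : Fin d → Bool, ∑ p', (if RP p p' then (1 / (d : ℝ)) else 0) = 1 := by
    intro p
    rw [← Finset.sum_filter, Finset.sum_const]
    have h1 : Finset.univ.filter (fun p' => RP p p') = Finset.univ.image (fun i => flip i p) := by
      ext p'
      rw [Finset.mem_filter, Finset.mem_image]
      constructor
      · rintro ⟨_, i, hi⟩; exact ⟨i, Finset.mem_univ _, hi.symm⟩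
      · rintro ⟨i, _, hi⟩; exact ⟨Finset.mem_univ _, i, hi.symm⟩
    rw [h1, Finset.card_image_of_injective _ (flip_injective p), Finset.card_univ,
      Fintype.card_fin, nsmul_eq_mul]
    field_simp
  refine count_inv piP RP (fun _ _ hr => RP_piP hr) d hd0
    (fun p p' => if RP p p' then 1 / (d : ℝ) else 0) ?_ hsum ?_ ?_ ?_ s _ ?_
  · intro p p'
    split_ifs
    · positivity
    · exact le_rfl
  · intro p
    refine (Finset.sum_congr rfl ?_).trans (hsum p)
    intro p' _
    have : RP p' p ↔ RP p p' := ⟨RP_symm, RP_symm⟩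
    simp only [this]
  · intro p p' hne
    by_contra hn
    exact hne (if_neg hn)
  · intro p p'
    show (if RP p p' then 1 / (d : ℝ) else 0) ≤ 1 / (d : ℝ)
    split_ifs
    · exact le_rfl
    · positivity
  · simp only [Fintype.card_pi, Fintype.card_bool, Finset.prod_const, Finset.card_univ,
      Fintype.card_fin]
    rw [← pow_succ']
    congr 1
    omega

theorem card_Ch {c d h : ℕ} (hd : 1 ≤ d) :
    ((((h : ℝ) + 1) / Real.exp 1) ^ (2 ^ (4 * h + 1))) ^ ((2 ^ c - 1) * 2 ^ d) *
        (((d : ℝ) / Real.exp 1) ^ (2 ^ (d - 1))) ^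
          ((2 ^ c - 1) * (2 ^ (4 * h + 2) - (2 * h + 1).choose (h + 1) * 2 ^ (2 * h))) ≤
      (Nat.card (Ch c d h) : ℝ) := by
  classical
  rw [Nat.card_prod, Nat.card_pi, Nat.card_pi]
  push_cast
  have e1 : (((((h : ℝ) + 1) / Real.exp 1) ^ (2 ^ (4 * h + 1))) ^ ((2 ^ c - 1) * 2 ^ d)) =
      ∏ _gp : {g : Fin c → Bool // g ≠ fun _ => false} × (Fin d → Bool),
        ((((h : ℝ) + 1) / Real.exp 1) ^ (2 ^ (4 * h + 1))) := by
    rw [Finset.prod_const, Finset.card_univ, ← Nat.card_eq_fintype_card, Nat.card_prod, card_ne]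
    simp
  have e2 : ((((d : ℝ) / Real.exp 1) ^ (2 ^ (d - 1))) ^
          ((2 ^ c - 1) * (2 ^ (4 * h + 2) - (2 * h + 1).choose (h + 1) * 2 ^ (2 * h)))) =
      ∏ _gq : {g : Fin c → Bool // g ≠ fun _ => false} × {q : QQ h // q ∉ ZZ h},
        (((d : ℝ) / Real.exp 1) ^ (2 ^ (d - 1))) := by
    rw [Finset.prod_const, Finset.card_univ, ← Nat.card_eq_fintype_card, Nat.card_prod, card_ne,
      card_nZZ]
  rw [e1, e2]
  refine mul_le_mul ?_ ?_ ?_ ?_
  · exact Finset.prod_le_prod (fun _ _ => by positivity) (fun gp _ => count_Q h _)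
  · exact Finset.prod_le_prod (fun _ _ => by positivity) (fun gq _ => count_P hd _)
  · exact Finset.prod_nonneg (fun _ _ => by positivity)
  · exact Finset.prod_nonneg (fun _ _ => by positivity)

end Pool.Agent.Helper886.HCube
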