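import Pool.Agent.Helper886.HCube.Perm

set_option autoImplicit false
open scoped BigOperators

namespace Pool.Agent.Helper886.HCube

/-- involutions along `R`, oriented from the class `s` -/
def OInv {X : Type} (π : X → Bool) (R : X → X → Prop) (s : Bool) : Type :=
  {l : X → X // (∀ x, l (l x) = x) ∧ (∀ x, π x = s → R x (l x)) ∧ (∀ x, π x ≠ s → R (l x) x)}

noncomputable instance {X : Type} [Finite X] (π : X → Bool) (R : X → X → Prop) (s : Bool) :
    Finite (OInv π R s) := by
  classical
  cases nonempty_fintype X
  exact Subtype.finite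

theorem count_inv {X : Type} [Fintype X] [DecidableEq X] (π : X → Bool) (R : X → X → Prop)
    (hR : ∀ x y, R x y → π x ≠ π y) (D : ℝ) (hD : 0 < D) (W : X → X → ℝ)
    (h0 : ∀ x y, 0 ≤ W x y) (hr : ∀ x, ∑ y, W x y = 1) (hc : ∀ y, ∑ x, W x y = 1)
    (hW : ∀ x y, W x y ≠ 0 → R x y) (hWD : ∀ x y, W x y ≤ 1 / D) (s : Bool) (N : ℕ)
    (hN : Fintype.card X = 2 * N) :
    (D / Real.exp 1) ^ N ≤ (Nat.card (OInv π R s) : ℝ) := by
  classical
  -- the two classes
  have hrs : ∀ t : Bool, ∀ x, π x = t → ∑ y ∈ Finset.univ.filter (fun y => π y = !t), W x y = 1 := by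
    intro t x hx
    rw [← hr x, Finset.sum_filter]
    refine Finset.sum_congr rfl ?_
    intro y _
    split_ifs with h
    · rfl
    · by_contra hne
      have h1 := hR x y (hW x y (fun h => hne h.symm))
      rw [hx] at h1
      apply h
      cases h2 : π y <;> cases t <;> simp_all
  have hcs : ∀ t : Bool, ∀ y, π y = !t → ∑ x ∈ Finset.univ.filter (fun x => π x = t), W x y = 1 := by
    intro t y hy
    rw [← hc y, Finset.sum_filter]
    refine Finset.sum_congr rfl ?_
    intro x _
    split_ifs with h
    · rfl
    · by_contra hne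
      have h1 := hR x y (hW x y (fun h => hne h.symm))
      rw [hy] at h1
      apply h
      cases h2 : π x <;> cases t <;> simp_all
  have hcardeq : (Finset.univ.filter (fun x => π x = s)).card =
      (Finset.univ.filter (fun y => π y = !s)).card := by
    have h1 : (∑ x ∈ Finset.univ.filter (fun x => π x = s),
        ∑ y ∈ Finset.univ.filter (fun y => π y = !s), W x y) =
        ((Finset.univ.filter (fun x => π x = s)).card : ℝ) := by
      rw [Finset.sum_congr rfl (fun x hx => hrs s x (Finset.mem_filter.mp hx).2)]
      simp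
    have h2 : (∑ x ∈ Finset.univ.filter (fun x => π x = s),
        ∑ y ∈ Finset.univ.filter (fun y => π y = !s), W x y) =
        ((Finset.univ.filter (fun y => π y = !s)).card : ℝ) := by
      rw [Finset.sum_comm, Finset.sum_congr rfl (fun y hy => hcs s y (Finset.mem_filter.mp hy).2)]
      simp
    have : ((Finset.univ.filter (fun x => π x = s)).card : ℝ) =
      ((Finset.univ.filter (fun y => π y = !s)).card : ℝ) := by rw [← h1, h2]
    exact_mod_cast this
  have htot : (Finset.univ.filter (fun x => π x = s)).card +
      (Finset.univ.filter (fun y => π y = !s)).card = 2 * N := by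
    rw [← hN, ← Finset.card_univ, ← Finset.card_filter_add_card_filter_not (s := Finset.univ)
      (fun x => π x = s)]
    congr 2
    ext y
    simp only [Finset.mem_filter, Finset.mem_univ, true_and]
    cases π y <;> cases s <;> simp
  have hN1 : Fintype.card {x // π x = s} = N := by
    rw [Fintype.card_subtype]; omega
  have hN2 : Fintype.card {x // π x = !s} = N := by
    rw [Fintype.card_subtype]; omega
  let α : Fin N ≃ {x // π x = s} := (Fintype.equivFinOfCardEq hN1).symm
  let β : Fin N ≃ {x // π x = !s} := (Fintype.equivFinOfCardEq hN2).symm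
  let A : Fin N → Fin N → ℝ := fun i j => W (α i) (β j)
  have hA1 : ∀ i, ∑ j, A i j = 1 := by
    intro i
    have h1 : ∑ j, A i j = ∑ y : {x // π x = !s}, W (α i) y := by
      show ∑ j, W (α i) (β j) = _
      exact Equiv.sum_comp β (fun y => W (α i) y)
    rw [h1, ← hrs s (α i) (α i).2, Finset.sum_subtype (Finset.univ.filter (fun y => π y = !s))]
    intro x; simp
  have hA2 : ∀ j, ∑ i, A i j = 1 := by
    intro j
    have h1 : ∑ i, A i j = ∑ x : {x // π x = s}, W x (β j) := by
      show ∑ i, W (α i) (β j) = _
      exact Equiv.sum_comp α (fun x => W x (β j))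
    rw [h1, ← hcs s (β j) (β j).2, Finset.sum_subtype (Finset.univ.filter (fun y => π y = s))]
    intro x; simp
  have hperm := perm_lower A (fun i j => h0 _ _) hA1 hA2
  -- good permutations
  set G : Finset (Equiv.Perm (Fin N)) :=
    Finset.univ.filter (fun σ => ∀ i, R (α i) (β (σ i))) with hG
  have h1 : ∑ σ : Equiv.Perm (Fin N), ∏ i, A i (σ i) ≤ (G.card : ℝ) * (1 / D) ^ N := by
    calc ∑ σ : Equiv.Perm (Fin N), ∏ i, A i (σ i) = ∑ σ ∈ G, ∏ i, A i (σ i) := by
          rw [hG, Finset.sum_filter]
          refine Finset.sum_congr rfl ?_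
          intro σ _
          split_ifs with h
          · rfl
          · push Not at h
            obtain ⟨i, hi⟩ := h
            refine Finset.prod_eq_zero (Finset.mem_univ i) ?_
            by_contra hne
            exact hi (hW _ _ hne)
      _ ≤ ∑ _σ ∈ G, (1 / D) ^ N := by
          refine Finset.sum_le_sum ?_
          intro σ _
          calc ∏ i, A i (σ i) ≤ ∏ _i : Fin N, (1 / D) :=
                Finset.prod_le_prod (fun i _ => h0 _ _) (fun i _ => hWD _ _)
            _ = (1 / D) ^ N := by simp
      _ = _ := by rw [Finset.sum_const, nsmul_eq_mul]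
  -- injection into involutions
  have hβα : ∀ i j, (α i : X) ≠ β j := by
    intro i j h
    have h1 := (α i).2
    have h2 := (β j).2
    rw [h, h2] at h1
    cases s <;> simp at h1
  have hle : G.card ≤ Nat.card (OInv π R s) := by
    have hfin : Finite (OInv π R s) := inferInstance
    let φ : G → OInv π R s := fun σ =>
      ⟨fun x => if hx : π x = s then (β (σ.1 (α.symm ⟨x, hx⟩)) : X)
        else (α (σ.1.symm (β.symm ⟨x, by cases h1 : π x <;> cases s <;> simp_all⟩)) : X), by
        have hσ : ∀ i, R (α i) (β (σ.1 i)) := (Finset.mem_filter.mp σ.2).2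
        refine ⟨?_, ?_, ?_⟩
        · intro x
          by_cases hx : π x = s
          · have h2 : π (β (σ.1 (α.symm ⟨x, hx⟩)) : X) ≠ s := by
              rw [(β _).2]; cases s <;> simp
            simp only [hx, dif_pos, h2, dif_neg, not_false_eq_true]
            simp
          · have h2 : π (α (σ.1.symm (β.symm ⟨x, by cases h1 : π x <;> cases s <;> simp_all⟩)) : X)
                = s := (α _).2
            simp only [hx, dif_neg, h2, dif_pos, not_false_eq_true]
            simp
        · intro x hx
          simp only [hx, dif_pos]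
          have := hσ (α.symm ⟨x, hx⟩)
          simpa using this
        · intro x hx
          simp only [hx, dif_neg, not_false_eq_true]
          have := hσ (σ.1.symm (β.symm ⟨x, by cases h1 : π x <;> cases s <;> simp_all⟩))
          simpa using this⟩
    have hφ : Function.Injective φ := by
      intro σ τ h
      apply Subtype.ext
      ext i
      have h2 := congrFun (congrArg Subtype.val h) (α i)
      have h3 : π (α i : X) = s := (α i).2
      simp only [φ, h3, dif_pos, Subtype.coe_eta, Equiv.symm_apply_apply] at h2
      have h4 : β (σ.1 i) = β (τ.1 i) := Subtype.ext h2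
      exact congrArg Fin.val (β.injective h4)
    have := Nat.card_le_card_of_injective φ hφ
    simpa using this
  have hDN : (0 : ℝ) < D ^ N := by positivity
  have h2 : Real.exp (-(N : ℝ)) ≤ (Nat.card (OInv π R s) : ℝ) * (1 / D) ^ N := by
    refine hperm.trans (h1.trans ?_)
    apply mul_le_mul_of_nonneg_right
    · exact_mod_cast hle
    · positivity
  rw [div_pow, ← Real.exp_nat_mul, mul_one, div_le_iff₀ (Real.exp_pos _)]
  rw [Real.exp_neg, one_div, inv_pow] at h2
  have h3 : (Real.exp (N : ℝ))⁻¹ * (Real.exp N * D ^ N) ≤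
      ((Nat.card (OInv π R s) : ℝ) * (D ^ N)⁻¹) * (Real.exp N * D ^ N) :=
    mul_le_mul_of_nonneg_right h2 (by positivity)
  have h4 : (Real.exp (N : ℝ))⁻¹ * (Real.exp N * D ^ N) = D ^ N := by
    field_simp
  have h5 : ((Nat.card (OInv π R s) : ℝ) * (D ^ N)⁻¹) * (Real.exp N * D ^ N) =
      (Nat.card (OInv π R s) : ℝ) * Real.exp N := by
    field_simp
  rw [h4, h5] at h3
  exact h3

end Pool.Agent.Helper886.HCube
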