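import Mathlib

set_option autoImplicit false

namespace Pool.Agent.Helper886.HCube

/-- TARGET. Two perfect matchings (fixed point free involutions `L`, `M`) whose union is connected give
a Hamiltonian cycle, whose edges are exactly the edges of the two matchings. -/
theorem ham_of_conn {V : Type} [Fintype V] [DecidableEq V] (G : SimpleGraph V) (L M : V → V)
    (hL : ∀ v, L (L v) = v) (hM : ∀ v, M (M v) = v)
    (hGL : ∀ v, G.Adj v (L v)) (hGM : ∀ v, G.Adj v (M v)) (hcard : 2 < Fintype.card V)
    (hconn : ∀ x y : V, Relation.ReflTransGen (fun u v => v = L u ∨ v = M u) x y) (v₀ : V) :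
    ∃ p : G.Walk v₀ v₀, p.IsHamiltonianCycle ∧
      ∀ a b, p.toSubgraph.Adj a b ↔ (b = L a ∨ b = M a) := by
  classical
  have hLM : ∀ v, L v ≠ M v := by
    intro v hv
    have hcl : ∀ y, Relation.ReflTransGen (fun u v => v = L u ∨ v = M u) v y → y = v ∨ y = L v := by
      intro y hy
      induction hy with
      | refl => exact Or.inl rfl
      | tail _ hbc ih =>
        rcases ih with rfl | rfl
        · rcases hbc with h | h
          · exact Or.inr h
          · exact Or.inr (h.trans hv.symm)
        · rcases hbc with h | h
          · left; rw [h, hL]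
          · left; rw [h, hv, hM]
    have huniv : (Finset.univ : Finset V) ⊆ {v, L v} := by
      intro y _
      simpa using hcl y (hconn v y)
    have := Finset.card_le_card huniv
    have h2 := Finset.card_le_two (a := v) (b := L v)
    rw [Finset.card_univ] at this
    omega
  let H : SimpleGraph V :=
    { Adj := fun a b => b = L a ∨ b = M a
      symm := ⟨by
        rintro a b (h | h)
        · left; rw [h, hL]
        · right; rw [h, hM]⟩
      loopless := ⟨by
        rintro a (h | h)
        · have := hGL a
          rw [← h] at this
          exact G.loopless.irrefl a this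
        · have := hGM a
          rw [← h] at this
          exact G.loopless.irrefl a this⟩ }
  have hHadj : ∀ a b, H.Adj a b ↔ (b = L a ∨ b = M a) := fun a b => Iff.rfl
  have hHG : H ≤ G := by
    intro a b h
    rcases h with h | h
    · rw [h]; exact hGL a
    · rw [h]; exact hGM a
  have hnb : ∀ v, H.neighborSet v = {L v, M v} := by
    intro v; ext w; simp [SimpleGraph.mem_neighborSet, hHadj]
  have hcyc : H.IsCycles := by
    intro v _
    rw [hnb, Set.ncard_pair (hLM v)]
  have hreach : ∀ x y, H.Reachable x y := by
    intro x y
    have := hconn x y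
    induction this with
    | refl => exact SimpleGraph.Reachable.refl _
    | tail _ hbc ih => exact ih.trans (SimpleGraph.Adj.reachable hbc)
  obtain ⟨p, hp, hpv⟩ := hcyc.exists_cycle_toSubgraph_verts_eq_connectedComponentSupp
    (v := v₀) (c := H.connectedComponentMk v₀) (by simp) ⟨L v₀, Or.inl rfl⟩
  have hverts : ∀ v, v ∈ p.toSubgraph.verts := by
    intro v
    rw [hpv]
    simp only [SimpleGraph.ConnectedComponent.mem_supp_iff]
    exact SimpleGraph.ConnectedComponent.sound (hreach v v₀)
  have hadj : ∀ a b, p.toSubgraph.Adj a b ↔ (b = L a ∨ b = M a) := by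
    intro a b
    rw [hp.adj_toSubgraph_iff_of_isCycles hcyc (hverts a) b]
  refine ⟨p.mapLe hHG, ?_, ?_⟩
  · rw [SimpleGraph.Walk.isHamiltonianCycle_iff_isCycle_and_support_count_tail_eq_one]
    refine ⟨hp.mapLe hHG, ?_⟩
    intro a
    have hsup : (p.mapLe hHG).support = p.support := by simp
    rw [hsup]
    apply List.count_eq_one_of_mem hp.support_nodup
    have ha : a ∈ p.support := by
      have := hverts a
      rwa [SimpleGraph.Walk.mem_verts_toSubgraph] at this
    rcases eq_or_ne a v₀ with rfl | hne
    · exact SimpleGraph.Walk.end_mem_tail_support hp.not_nil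
    · rw [SimpleGraph.Walk.support_eq_cons] at ha
      rcases List.mem_cons.1 ha with h | h
      · exact absurd h hne
      · exact h
  · intro a b
    rw [← hadj a b, SimpleGraph.Walk.adj_toSubgraph_mapLe]

end Pool.Agent.Helper886.HCube
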