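import Pool.Agent.Helper886.HCube.Fwd
import Pool.Agent.Helper886.HCube.Count
import Pool.Agent.Helper886.HCube.Ham

set_option autoImplicit false

namespace Pool.Agent.Helper886.HCube

open Function

/-- index set of the coordinates -/
abbrev Idx (c d h : ℕ) : Type := (Fin c ⊕ Fin d) ⊕ (Fin (2 * h + 1) ⊕ Fin (2 * h + 1))

/-- the vertices -/
abbrev VV (c d h : ℕ) : Type := Idx c d h → Bool

section

variable {c d h : ℕ}

def gp (x : VV c d h) : Fin c → Bool := fun i => x (.inl (.inl i))
def pp (x : VV c d h) : Fin d → Bool := fun i => x (.inl (.inr i))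
def qp (x : VV c d h) : QQ h := (fun i => x (.inr (.inl i)), fun i => x (.inr (.inr i)))
def mk (g : Fin c → Bool) (p : Fin d → Bool) (q : QQ h) : VV c d h :=
  Sum.elim (Sum.elim g p) (Sum.elim q.1 q.2)

@[simp] theorem gp_mk (g : Fin c → Bool) (p : Fin d → Bool) (q : QQ h) : gp (mk g p q) = g := rfl
@[simp] theorem pp_mk (g : Fin c → Bool) (p : Fin d → Bool) (q : QQ h) : pp (mk g p q) = p := rfl
@[simp] theorem qp_mk (g : Fin c → Bool) (p : Fin d → Bool) (q : QQ h) : qp (mk g p q) = q := rfl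
@[simp] theorem mk_eta (x : VV c d h) : mk (gp x) (pp x) (qp x) = x := by
  funext i
  rcases i with (i | i) | (i | i) <;> rfl

theorem mk_inj {g g' : Fin c → Bool} {p p' : Fin d → Bool} {q q' : QQ h}
    (he : mk g p q = mk g' p' q') : g = g' ∧ p = p' ∧ q = q' :=
  ⟨congrArg gp he, congrArg pp he, congrArg qp he⟩

theorem flip_mk_p (g : Fin c → Bool) (p : Fin d → Bool) (q : QQ h) (i : Fin d) :
    mk g (flip i p) q = flip (.inl (.inr i)) (mk g p q) := by
  funext j
  rcases j with (j | j) | (j | j)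
  · rw [flip_ne (by simp)]; rfl
  · by_cases hj : j = i
    · subst hj
      rw [flip_same]
      show flip j p j = !(p j)
      rw [flip_same]
    · rw [flip_ne (by simpa using hj)]
      show flip i p j = p j
      rw [flip_ne hj]
  · rw [flip_ne (by simp)]; rfl
  · rw [flip_ne (by simp)]; rfl

theorem flip_mk_q1 (g : Fin c → Bool) (p : Fin d → Bool) (q : QQ h) (i : Fin (2 * h + 1)) (b : Bool)
    (hb : q.1 i = !b) : mk g p (update q.1 i b, q.2) = flip (.inr (.inl i)) (mk g p q) := by
  funext j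
  rcases j with (j | j) | (j | j)
  · rw [flip_ne (by simp)]; rfl
  · rw [flip_ne (by simp)]; rfl
  · by_cases hj : j = i
    · subst hj
      rw [flip_same]
      show update q.1 j b j = !(q.1 j)
      rw [update_self, hb, Bool.not_not]
    · rw [flip_ne (by simpa using hj)]
      show update q.1 i b j = q.1 j
      rw [update_of_ne hj]
  · rw [flip_ne (by simp)]; rfl

theorem flip_mk_q2 (g : Fin c → Bool) (p : Fin d → Bool) (q : QQ h) (i : Fin (2 * h + 1)) (b : Bool)
    (hb : q.2 i = !b) : mk g p (q.1, update q.2 i b) = flip (.inr (.inr i)) (mk g p q) := by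
  funext j
  rcases j with (j | j) | (j | j)
  · rw [flip_ne (by simp)]; rfl
  · rw [flip_ne (by simp)]; rfl
  · rw [flip_ne (by simp)]; rfl
  · by_cases hj : j = i
    · subst hj
      rw [flip_same]
      show update q.2 j b j = !(q.2 j)
      rw [update_self, hb, Bool.not_not]
    · rw [flip_ne (by simpa using hj)]
      show update q.2 i b j = q.2 j
      rw [update_of_ne hj]

theorem fwd_flip (g : Fin c → Bool) (p : Fin d → Bool) {q q' : QQ h} (hf : Fwd h q q') :
    ∃ i, mk g p q' = flip i (mk g p q) := by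
  rcases hf with ⟨_, i, hi, rfl⟩ | ⟨_, i, hi, rfl⟩ | ⟨_, i, hi, rfl⟩ | ⟨_, i, hi, rfl⟩
  · exact ⟨_, flip_mk_q1 g p q i false (by simpa using hi)⟩
  · exact ⟨_, flip_mk_q1 g p q i true (by simpa using hi)⟩
  · exact ⟨_, flip_mk_q2 g p q i true (by simpa using hi)⟩
  · exact ⟨_, flip_mk_q2 g p q i false (by simpa using hi)⟩

theorem qp_flip_inl (x : VV c d h) (i : Fin c ⊕ Fin d) : qp (flip (.inl i) x) = qp x := by
  unfold qp
  ext j
  · simp only; rw [flip_ne (by simp)]
  · simp only; rw [flip_ne (by simp)]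

theorem gp_flip_inlr (x : VV c d h) (i : Fin d) : gp (flip (.inl (.inr i)) x) = gp x := by
  unfold gp
  ext j
  rw [flip_ne (by simp)]

theorem gp_flip_inr (x : VV c d h) (i : Fin (2 * h + 1) ⊕ Fin (2 * h + 1)) :
    gp (flip (.inr i) x) = gp x := by
  unfold gp
  ext j
  rw [flip_ne (by simp)]

/-- parity of a point of the first two blocks -/
def sG (g : Fin c → Bool) (p : Fin d → Bool) : Bool := decide (Even (wt g + wt p))

/-- parity in the block `p` -/
def piP (p : Fin d → Bool) : Bool := decide (Even (wt p))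

/-- adjacency in the block `p` -/
def RP (p p' : Fin d → Bool) : Prop := ∃ i, p' = flip i p

theorem RP_piP {p p' : Fin d → Bool} (hr : RP p p') : piP p ≠ piP p' := by
  obtain ⟨i, rfl⟩ := hr
  unfold piP
  intro he
  rw [decide_eq_decide, Nat.even_iff, Nat.even_iff] at he
  have := wt_flip p i
  omega

theorem RP_symm {p p' : Fin d → Bool} (hr : RP p p') : RP p' p := by
  obtain ⟨i, rfl⟩ := hr
  exact ⟨i, (flip_flip i p).symm⟩

theorem sG_RP (g : Fin c → Bool) {p p' : Fin d → Bool} (hr : RP p p') : sG g p ≠ sG g p' := by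
  obtain ⟨i, rfl⟩ := hr
  unfold sG
  intro he
  rw [decide_eq_decide, Nat.even_iff, Nat.even_iff] at he
  have := wt_flip p i
  omega

end

/-- the choices -/
abbrev Ch (c d h : ℕ) : Type :=
  ((gp : {g : Fin c → Bool // g ≠ fun _ => false} × (Fin d → Bool)) →
    OInv (piQ (h := h)) (Fwd h) (sG gp.1.1 gp.2)) ×
  ({g : Fin c → Bool // g ≠ fun _ => false} × {q : QQ h // q ∉ ZZ h} →
    OInv (piP (d := d)) RP true)

section

variable {c d h : ℕ}

open Classical in
/-- the matching `L` -/
noncomputable def LL (L0 : VV c d h → VV c d h) (ch : Ch c d h) (x : VV c d h) : VV c d h :=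
  if hg : gp x = fun _ => false then L0 x
  else mk (gp x) (pp x) ((ch.1 (⟨gp x, hg⟩, pp x)).1 (qp x))

open Classical in
/-- the matching `M` outside the cut -/
noncomputable def bb (j0 : Fin d) (ch : Ch c d h) (x : VV c d h) : VV c d h :=
  if hz : qp x ∈ ZZ h then x
  else if hg : gp x = fun _ => false then flip (.inl (.inr j0)) x
  else mk (gp x) ((ch.2 (⟨gp x, hg⟩, ⟨qp x, hz⟩)).1 (pp x)) (qp x)

theorem LL_zero (L0 : VV c d h → VV c d h) (ch : Ch c d h) {x : VV c d h}
    (hg : gp x = fun _ => false) : LL L0 ch x = L0 x := by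
  unfold LL; rw [dif_pos hg]

theorem LL_ne (L0 : VV c d h → VV c d h) (ch : Ch c d h) {x : VV c d h}
    (hg : gp x ≠ fun _ => false) :
    LL L0 ch x = mk (gp x) (pp x) ((ch.1 (⟨gp x, hg⟩, pp x)).1 (qp x)) := by
  unfold LL; rw [dif_neg hg]

theorem bb_cut (j0 : Fin d) (ch : Ch c d h) {x : VV c d h} (hz : qp x ∈ ZZ h) : bb j0 ch x = x := by
  unfold bb; rw [dif_pos hz]

theorem bb_zero (j0 : Fin d) (ch : Ch c d h) {x : VV c d h} (hz : qp x ∉ ZZ h)
    (hg : gp x = fun _ => false) : bb j0 ch x = flip (.inl (.inr j0)) x := by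
  unfold bb; rw [dif_neg hz, dif_pos hg]

theorem bb_ne (j0 : Fin d) (ch : Ch c d h) {x : VV c d h} (hz : qp x ∉ ZZ h)
    (hg : gp x ≠ fun _ => false) :
    bb j0 ch x = mk (gp x) ((ch.2 (⟨gp x, hg⟩, ⟨qp x, hz⟩)).1 (pp x)) (qp x) := by
  unfold bb; rw [dif_neg hz, dif_neg hg]

theorem oinv_ne {X : Type} {π : X → Bool} {R : X → X → Prop} (hR : ∀ x y, R x y → π x ≠ π y)
    {s : Bool} (l : OInv π R s) (x : X) : π (l.1 x) ≠ π x := by
  by_cases hx : π x = s
  · exact (hR _ _ (l.2.2.1 x hx)).symm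
  · exact hR _ _ (l.2.2.2 x hx)

end

/-- slice zero -/
def T0 (c d h : ℕ) : Set (VV c d h) := {x | gp x = fun _ => false}

/-- the coordinates which are free in slice zero -/
def S0 (c d h : ℕ) : Finset (Idx c d h) :=
  Finset.univ.filter (fun i => ∀ j : Fin c, i ≠ .inl (.inl j))

/-- the coordinates of the first two blocks -/
def S1 (c d h : ℕ) : Finset (Idx c d h) :=
  Finset.univ.filter (fun i => ∃ j : Fin c ⊕ Fin d, i = .inl j)

section

variable {c d h : ℕ}

theorem T0_eq : T0 c d h = subcube (S0 c d h) (fun _ => false) := by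
  ext x
  simp only [T0, subcube, S0, Set.mem_ofPred_eq, Finset.mem_filter, Finset.mem_univ, true_and]
  constructor
  · intro hx i hi
    push Not at hi
    obtain ⟨j, rfl⟩ := hi
    exact congrFun hx j
  · intro hx
    funext j
    exact hx (.inl (.inl j)) (by push Not; exact ⟨j, rfl⟩)

theorem piece_eq (q : QQ h) : {x : VV c d h | qp x = q} =
    subcube (S1 c d h) (mk (fun _ => false) (fun _ => false) q) := by
  ext x
  simp only [subcube, S1, Set.mem_ofPred_eq, Finset.mem_filter, Finset.mem_univ, true_and]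
  constructor
  · intro hx i hi
    rcases i with i | i
    · exact absurd ⟨i, rfl⟩ hi
    · subst hx
      rcases i with i | i <;> rfl
  · intro hx
    unfold qp
    ext j
    · exact hx (.inr (.inl j)) (by rintro ⟨i, hi⟩; simp at hi)
    · exact hx (.inr (.inr j)) (by rintro ⟨i, hi⟩; simp at hi)

end

end Pool.Agent.Helper886.HCube
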