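import Pool.Agent.Helper886.HCube.Pieces

set_option autoImplicit false

namespace Pool.Agent.Helper886.HCube

open Function

variable {V : Type}

/-- union of the pieces with index in `S` -/
def US {ζ : Type} (A : ζ → Set V) (S : Finset ζ) : Set V := {x | ∃ z ∈ S, x ∈ A z}

theorem pieces [Finite V] {E : V → V → Prop} {ζ : Type} [Fintype ζ] [DecidableEq ζ]
    (A : ζ → Set V) (hdisj : ∀ z z', z ≠ z' → ∀ x, x ∈ A z → x ∉ A z')
    (hev : ∀ z, Even (A z).ncard) (hF : ∀ z, FinkP (A z) E) (z0 : ζ) (K : V → V)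
    (hK : Inv (US A Finset.univ) K)
    (hcon : ∀ S : Finset ζ, z0 ∈ S → S ≠ Finset.univ →
      ∃ z, z ∉ S ∧ ∃ x ∈ A z, ∃ z' ∈ S, K x ∈ A z') :
    ∃ M : V → V, Inv (US A Finset.univ) M ∧ (∀ z, ∀ x ∈ A z, M x ∈ A z ∧ E x (M x)) ∧
      Conn (US A Finset.univ) K M := by
  classical
  have key : ∀ m : ℕ, m < Fintype.card ζ → ∃ S : Finset ζ, z0 ∈ S ∧ S.card = m + 1 ∧
      ∀ K' : V → V, Inv (US A S) K' → (∀ x ∈ US A S, K x ∈ US A S → K' x = K x) →
        ∃ M : V → V, Inv (US A S) M ∧ (∀ z ∈ S, ∀ x ∈ A z, M x ∈ A z ∧ E x (M x)) ∧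
          Conn (US A S) K' M := by
    intro m
    induction m with
    | zero =>
      intro _
      refine ⟨{z0}, by simp, by simp, ?_⟩
      intro K' hK' _
      have hU : US A {z0} = A z0 := by ext x; simp [US]
      rw [hU] at hK' ⊢
      obtain ⟨M, h1, h2, h3⟩ := hF z0 K' hK'
      refine ⟨M, h1, ?_, h3⟩
      intro z hz x hx
      rw [Finset.mem_singleton] at hz
      subst hz
      exact ⟨h1.maps x hx, h2 x hx⟩
    | succ m ih =>
      intro hm
      obtain ⟨S, hz0, hcard, hS⟩ := ih (by omega)
      have hne : S ≠ Finset.univ := by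
        intro h
        rw [h, Finset.card_univ] at hcard
        omega
      obtain ⟨z, hz, x, hx, z', hz', hKx⟩ := hcon S hz0 hne
      refine ⟨insert z S, by simp [hz0], by rw [Finset.card_insert_of_notMem hz, hcard], ?_⟩
      intro K' hK' hagree
      have hU : US A (insert z S) = US A S ∪ A z := by
        ext y
        simp only [US, Finset.mem_insert, Set.mem_ofPred_eq, Set.mem_union]
        constructor
        · rintro ⟨w, rfl | hw, hy⟩
          · exact Or.inr hy
          · exact Or.inl ⟨w, hw, hy⟩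
        · rintro (⟨w, hw, hy⟩ | hy)
          · exact ⟨w, Or.inr hw, hy⟩
          · exact ⟨z, Or.inl rfl, hy⟩
      rw [hU] at hK' hagree ⊢
      have hxU : K x ∈ US A S := ⟨z', hz', hKx⟩
      have hK'x : K' x = K x := hagree x (Or.inr hx) (Or.inl hxU)
      have hd : ∀ y, y ∈ US A S → y ∉ A z := by
        rintro y ⟨w, hw, hy⟩
        exact hdisj w z (fun h => hz (h ▸ hw)) y hy
      obtain ⟨MB, K'', hMB, hMBE, hK'', hK''agree, hfin⟩ :=
        step (A := US A S) (B := A z) hd (hev z) (hF z) hK' ⟨x, hx, by rw [hK'x]; exact hxU⟩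
      obtain ⟨MA, hMA, hMAE, hMAc⟩ := hS K'' hK'' (by
        intro y hy hKy
        have h1 : K' y = K y := hagree y (Or.inl hy) (Or.inl hKy)
        rw [hK''agree y hy (by rw [h1]; exact hKy), h1])
      set M : V → V := fun y => if y ∈ A z then MB y else MA y with hM
      have hM1 : ∀ y ∈ US A S, M y = MA y := by
        intro y hy
        simp only [hM, hd y hy, if_false]
      have hM2 : ∀ y ∈ A z, M y = MB y := by
        intro y hy
        simp only [hM, hy, if_true]
      refine ⟨M, ⟨?_, ?_, ?_⟩, ?_, hfin MA M hMA hMAc hM1 hM2⟩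
      · rintro y (hy | hy)
        · left; rw [hM1 y hy]; exact hMA.maps y hy
        · right; rw [hM2 y hy]; exact hMB.maps y hy
      · rintro y (hy | hy)
        · rw [hM1 y hy, hM1 _ (hMA.maps y hy)]; exact hMA.invol y hy
        · rw [hM2 y hy, hM2 _ (hMB.maps y hy)]; exact hMB.invol y hy
      · rintro y (hy | hy)
        · rw [hM1 y hy]; exact hMA.ne y hy
        · rw [hM2 y hy]; exact hMB.ne y hy
      · intro w hw y hy
        rcases Finset.mem_insert.mp hw with rfl | hw
        · rw [hM2 y hy]; exact ⟨hMB.maps y hy, hMBE y hy⟩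
        · rw [hM1 y ⟨w, hw, hy⟩]; exact hMAE w hw y hy
  have hpos : 0 < Fintype.card ζ := Fintype.card_pos_iff.mpr ⟨z0⟩
  obtain ⟨S, _, hcard, hS⟩ := key (Fintype.card ζ - 1) (by omega)
  have hSu : S = Finset.univ := by
    rw [← Finset.card_eq_iff_eq_univ]; omega
  subst hSu
  obtain ⟨M, h1, h2, h3⟩ := hS K hK (fun _ _ _ => rfl)
  exact ⟨M, h1, fun z => h2 z (Finset.mem_univ z), h3⟩

/-! ### Subcubes -/

section cube

variable {ι : Type} [DecidableEq ι]

/-- flip the coordinate `i` -/
def flip (i : ι) (x : ι → Bool) : ι → Bool := update x i (!(x i))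

theorem flip_same (i : ι) (x : ι → Bool) : flip i x i = !(x i) := by simp [flip]

theorem flip_ne {i j : ι} (h : j ≠ i) (x : ι → Bool) : flip i x j = x j := by simp [flip, h]

theorem flip_flip (i : ι) (x : ι → Bool) : flip i (flip i x) = x := by
  ext j
  by_cases h : j = i
  · subst h; simp [flip]
  · simp [flip, h]

theorem flip_ne_self (i : ι) (x : ι → Bool) : flip i x ≠ x := by
  intro h
  have := congrFun h i
  simp [flip] at this

/-- the subcube through `y` with free coordinates `S` -/
def subcube (S : Finset ι) (y : ι → Bool) : Set (ι → Bool) := {x | ∀ i, i ∉ S → x i = y i}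

theorem flip_mem {S : Finset ι} {y x : ι → Bool} {i : ι} (hi : i ∈ S) (hx : x ∈ subcube S y) :
    flip i x ∈ subcube S y := by
  intro j hj
  have : j ≠ i := fun h => hj (h ▸ hi)
  rw [flip_ne this]
  exact hx j hj

theorem inv_flip {S : Finset ι} {y : ι → Bool} {i : ι} (hi : i ∈ S) :
    Inv (subcube S y) (flip i) :=
  ⟨fun _ hx => flip_mem hi hx, fun x _ => flip_flip i x, fun x _ => flip_ne_self i x⟩

/-- Fink's theorem (Kreweras' conjecture) for subcubes -/
theorem fink [Fintype ι] (S : Finset ι) (hS : S.Nonempty) (y : ι → Bool) :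
    FinkP (subcube S y) (fun x x' => ∃ i ∈ S, x' = flip i x) := by
  classical
  induction hn : S.card using Nat.strong_induction_on generalizing S y with
  | _ n ih =>
    intro K hK
    rcases Nat.lt_or_ge 1 S.card with h1 | h1
    · -- choose a coordinate crossed by K
      have hy : y ∈ subcube S y := fun _ _ => rfl
      have hne := hK.ne y hy
      have hex : ∃ i, K y i ≠ y i := by
        by_contra h
        push Not at h
        exact hne (funext h)
      obtain ⟨i, hi⟩ := hex
      have hiS : i ∈ S := by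
        by_contra h
        exact hi (hK.maps y hy i h)
      have hcard : (S.erase i).card = S.card - 1 := Finset.card_erase_of_mem hiS
      have hS' : (S.erase i).Nonempty := by
        rw [← Finset.card_pos]; omega
      obtain ⟨j, hj⟩ := hS'
      set A := subcube (S.erase i) (flip i y) with hA
      set B := subcube (S.erase i) y with hB
      have hAi : ∀ x ∈ A, x i = !(y i) := by
        intro x hx
        rw [hx i (by simp), flip_same]
      have hBi : ∀ x ∈ B, x i = y i := by
        intro x hx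
        exact hx i (by simp)
      have hAB : A ∪ B = subcube S y := by
        ext x
        constructor
        · rintro (hx | hx) k hk
          · rw [hx k (fun h => hk (Finset.mem_of_mem_erase h))]
            exact flip_ne (fun h => hk (by rw [h]; exact hiS)) y
          · exact hx k (fun h => hk (Finset.mem_of_mem_erase h))
        · intro hx
          by_cases hxi : x i = y i
          · right
            intro k hk
            by_cases hki : k = i
            · rw [hki, hxi]
            · exact hx k (fun h => hk (Finset.mem_erase.mpr ⟨hki, h⟩))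
          · left
            intro k hk
            by_cases hki : k = i
            · rw [hki, flip_same]
              cases h2 : x i <;> cases h3 : y i <;> simp_all
            · rw [flip_ne hki]
              exact hx k (fun h => hk (Finset.mem_erase.mpr ⟨hki, h⟩))
      have hd : ∀ x, x ∈ A → x ∉ B := by
        intro x hx hx'
        have h2 := hAi x hx
        rw [hBi x hx'] at h2
        exact absurd h2 (by cases y i <;> decide)
      have hFB : FinkP B (fun x x' => ∃ k ∈ S.erase i, x' = flip k x) :=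
        ih (S.erase i).card (by omega) (S.erase i) ⟨j, hj⟩ y rfl
      have hFA : FinkP A (fun x x' => ∃ k ∈ S.erase i, x' = flip k x) :=
        ih (S.erase i).card (by omega) (S.erase i) ⟨j, hj⟩ (flip i y) rfl
      have hBe : Even B.ncard := even_of_inv (inv_flip hj)
      have hKAB : Inv (A ∪ B) K := by rw [hAB]; exact hK
      have hcross : ∃ x ∈ B, K x ∈ A := by
        refine ⟨y, fun _ _ => rfl, ?_⟩
        have h2 : K y ∈ A ∪ B := by rw [hAB]; exact hK.maps y hy
        rcases h2 with h2 | h2
        · exact h2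
        · exact absurd (hBi _ h2) hi
      obtain ⟨MB, K', hMB, hMBE, hK', _, hfin⟩ := step hd hBe hFB hKAB hcross
      obtain ⟨MA, hMA, hMAE, hMAc⟩ := hFA K' hK'
      set M : (ι → Bool) → (ι → Bool) := fun x => if x ∈ B then MB x else MA x with hM
      have hM1 : ∀ x ∈ A, M x = MA x := by
        intro x hx
        simp only [hM, hd x hx, if_false]
      have hM2 : ∀ x ∈ B, M x = MB x := by
        intro x hx
        simp only [hM, hx, if_true]
      have hconn := hfin MA M hMA hMAc hM1 hM2
      rw [hAB] at hconn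
      refine ⟨M, ?_, ?_, hconn⟩
      · rw [← hAB]
        refine ⟨?_, ?_, ?_⟩
        · rintro x (hx | hx)
          · left; rw [hM1 x hx]; exact hMA.maps x hx
          · right; rw [hM2 x hx]; exact hMB.maps x hx
        · rintro x (hx | hx)
          · rw [hM1 x hx, hM1 _ (hMA.maps x hx)]; exact hMA.invol x hx
          · rw [hM2 x hx, hM2 _ (hMB.maps x hx)]; exact hMB.invol x hx
        · rintro x (hx | hx)
          · rw [hM1 x hx]; exact hMA.ne x hx
          · rw [hM2 x hx]; exact hMB.ne x hx
      · intro x hx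
        rw [← hAB] at hx
        rcases hx with hx | hx
        · rw [hM1 x hx]
          obtain ⟨k, hk, h2⟩ := hMAE x hx
          exact ⟨k, Finset.mem_of_mem_erase hk, h2⟩
        · rw [hM2 x hx]
          obtain ⟨k, hk, h2⟩ := hMBE x hx
          exact ⟨k, Finset.mem_of_mem_erase hk, h2⟩
    · -- one free coordinate
      have hS1 : S.card = 1 := by
        have := Finset.card_pos.mpr hS
        omega
      obtain ⟨i, rfl⟩ := Finset.card_eq_one.mp hS1
      refine ⟨flip i, inv_flip (by simp), fun x _ => ⟨i, by simp, rfl⟩, ?_⟩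
      have htwo : ∀ x ∈ subcube {i} y, ∀ x' ∈ subcube {i} y, x' = x ∨ x' = flip i x := by
        intro x hx x' hx'
        by_cases h : x' i = x i
        · left
          funext k
          by_cases hk : k = i
          · rw [hk, h]
          · rw [hx k (by simpa using hk), hx' k (by simpa using hk)]
        · right
          funext k
          by_cases hk : k = i
          · rw [hk, flip_same]
            cases h2 : x i <;> cases h3 : x' i <;> simp_all
          · rw [flip_ne hk, hx k (by simpa using hk), hx' k (by simpa using hk)]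
      intro x hx x' hx'
      rcases htwo x hx x' hx' with h | h
      · rw [h]; exact .refl
      · exact .single (Or.inr h)

end cube

/-! ### Extension theorem -/

theorem extend [Finite V] {E : V → V → Prop} (L b : V → V) (hL : ∀ x, L (L x) = x)
    (hLne : ∀ x, L x ≠ x) (hb : ∀ x, b (b x) = x) {ζ : Type} [Fintype ζ] [DecidableEq ζ]
    (A : ζ → Set V) (hdisj : ∀ z z', z ≠ z' → ∀ x, x ∈ A z → x ∉ A z')
    (hfix : ∀ x, b x = x ↔ x ∈ US A Finset.univ)
    (hreach : ∀ x, ∃ y ∈ US A Finset.univ, Reach L b x y)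
    (hev : ∀ z, Even (A z).ncard) (hF : ∀ z, FinkP (A z) E) (z0 : ζ)
    (T0 : Set V) (hT0L : ∀ x ∈ T0, L x ∈ T0) (hT0b : ∀ x ∈ T0, b x ∈ T0) (M0 : V → V)
    (hM0 : ∀ z, ∀ x ∈ A z, x ∈ T0 → M0 x ∈ A z ∧ M0 x ∈ T0)
    (hT0conn : ∀ x ∈ T0, ∀ y ∈ T0, Relation.ReflTransGen
      (fun u v => v = L u ∨ v = b u ∨ (u ∈ US A Finset.univ ∧ v = M0 u)) x y)
    (hT0z : ∀ z, ∃ x ∈ A z, x ∈ T0) :
    ∃ M : V → V, (∀ x, M (M x) = x) ∧ (∀ x, M x ≠ x) ∧
      (∀ x, x ∉ US A Finset.univ → M x = b x) ∧ (∀ z, ∀ x ∈ A z, M x ∈ A z ∧ E x (M x)) ∧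
      ∀ x y, Reach L M x y := by
  classical
  set U := US A (Finset.univ : Finset ζ) with hU
  have hfp : ∀ x y, Reach L b x y → L y ≠ y := fun _ y _ => hLne y
  have hbx : ∀ x ∈ U, b x = x := fun x hx => (hfix x).mpr hx
  set K : V → V := omega L b with hKdef
  have hK : Inv U K := by
    refine ⟨?_, ?_, ?_⟩
    · intro x hx
      exact (hfix _).mp (omega_fix hL hb (hbx x hx) (hfp x))
    · intro x hx
      exact omega_omega hL hb (hbx x hx) (hfp x)
    · intro x hx
      exact omega_ne hL hb (hbx x hx) (hfp x)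
  have hcon : ∀ S : Finset ζ, z0 ∈ S → S ≠ Finset.univ →
      ∃ z, z ∉ S ∧ ∃ x ∈ A z, ∃ z' ∈ S, K x ∈ A z' := by
    intro S hz0 hSne
    by_contra hno
    push Not at hno
    -- `US A S` is closed under `K`
    have hcl : ∀ x ∈ US A S, K x ∈ US A S := by
      rintro x ⟨z', hz', hx⟩
      have hxU : x ∈ U := ⟨z', Finset.mem_univ _, hx⟩
      obtain ⟨z, _, hKx⟩ := hK.maps x hxU
      by_cases hz : z ∈ S
      · exact ⟨z, hz, hKx⟩
      · exfalso
        have := hno z hz (K x) hKx z' hz'
        rw [hK.invol x hxU] at this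
        exact this hx
    set T : Set V := {v | ∃ x ∈ US A S, Reach L b x v} with hT
    have hTclosed : ∀ x y, x ∈ T0 → x ∈ T → Relation.ReflTransGen
      (fun u v => v = L u ∨ v = b u ∨ (u ∈ U ∧ v = M0 u)) x y → y ∈ T ∧ y ∈ T0 := by
      intro x y hx0 hx h
      induction h with
      | refl => exact ⟨hx, hx0⟩
      | @tail u v _ h ih =>
        obtain ⟨⟨x', hx', hr⟩, hu0⟩ := ih
        rcases h with h | h | ⟨huU, h⟩
        · exact ⟨⟨x', hx', hr.tail (Or.inl h)⟩, by rw [h]; exact hT0L u hu0⟩
        · exact ⟨⟨x', hx', hr.tail (Or.inr h)⟩, by rw [h]; exact hT0b u hu0⟩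
        · have hx'U : x' ∈ U := by
            obtain ⟨z, _, hz⟩ := hx'
            exact ⟨z, Finset.mem_univ _, hz⟩
          have huS : u ∈ US A S := by
            rcases fix_unique hL hb (hbx x' hx'U) hr (hbx u huU) with h1 | h1
            · rw [h1]; exact hx'
            · rw [h1]; exact hcl x' hx'
          obtain ⟨z, hzS, huz⟩ := huS
          have h2 := hM0 z u huz hu0
          rw [h]
          exact ⟨⟨M0 u, ⟨z, hzS, h2.1⟩, .refl⟩, h2.2⟩
    obtain ⟨x0, hx0A, hx0T⟩ := hT0z z0
    have hx0TT : x0 ∈ T := ⟨x0, ⟨z0, hz0, hx0A⟩, .refl⟩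
    have hz : ∃ z, z ∉ S := by
      by_contra h
      push Not at h
      exact hSne (Finset.eq_univ_iff_forall.mpr h)
    obtain ⟨z, hzS⟩ := hz
    obtain ⟨y, hyA, hyT⟩ := hT0z z
    obtain ⟨⟨x', hx', hr⟩, _⟩ := hTclosed x0 y hx0T hx0TT (hT0conn x0 hx0T y hyT)
    have hx'U : x' ∈ U := by
      obtain ⟨w, _, hw⟩ := hx'
      exact ⟨w, Finset.mem_univ _, hw⟩
    have hyU : y ∈ U := ⟨z, Finset.mem_univ _, hyA⟩
    have hyS : y ∈ US A S := by
      rcases fix_unique hL hb (hbx x' hx'U) hr (hbx y hyU) with h1 | h1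
      · rw [h1]; exact hx'
      · rw [h1]; exact hcl x' hx'
    obtain ⟨w, hwS, hyw⟩ := hyS
    exact hdisj w z (fun h => hzS (h ▸ hwS)) y hyw hyA
  obtain ⟨MZ, hMZ, hMZE, hMZc⟩ := pieces A hdisj hev hF z0 K hK hcon
  set M : V → V := fun x => if x ∈ U then MZ x else b x with hM
  have hM1 : ∀ x ∈ U, M x = MZ x := fun x hx => by simp only [hM, hx, if_true]
  have hM2 : ∀ x, x ∉ U → M x = b x := fun x hx => by simp only [hM, hx, if_false]
  have hbU : ∀ x, x ∉ U → b x ∉ U := by
    intro x hx h
    have h1 := hbx _ h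
    rw [hb] at h1
    exact hx (by rw [h1]; exact h)
  have hMM : ∀ x, M (M x) = x := by
    intro x
    by_cases hx : x ∈ U
    · rw [hM1 x hx, hM1 _ (hMZ.maps x hx)]; exact hMZ.invol x hx
    · rw [hM2 x hx, hM2 _ (hbU x hx)]; exact hb x
  have hRR : ∀ x y, Reach L b x y → Reach L M x y := by
    intro x y h
    induction h with
    | refl => exact .refl
    | @tail u v _ h ih =>
      rcases h with h | h
      · exact ih.tail (Or.inl h)
      · by_cases hu : u ∈ U
        · rw [h, hbx u hu]; exact ih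
        · exact ih.tail (Or.inr (by rw [h, hM2 u hu]))
  have hRK : ∀ x ∈ U, ∀ y, Reach K MZ x y → Reach L M x y ∧ y ∈ U := by
    intro x hx y h
    induction h with
    | refl => exact ⟨.refl, hx⟩
    | @tail u v _ h ih =>
      obtain ⟨ih1, ih2⟩ := ih
      rcases h with h | h
      · rw [h]
        exact ⟨ih1.trans (hRR _ _ (reach_omega u)), hK.maps u ih2⟩
      · rw [h]
        exact ⟨ih1.tail (Or.inr (hM1 u ih2).symm), hMZ.maps u ih2⟩
  refine ⟨M, hMM, ?_, hM2, ?_, ?_⟩
  · intro x
    by_cases hx : x ∈ U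
    · rw [hM1 x hx]; exact hMZ.ne x hx
    · rw [hM2 x hx]
      intro h
      exact hx ((hfix x).mp h)
  · intro z x hx
    rw [hM1 x ⟨z, Finset.mem_univ _, hx⟩]
    exact hMZE z x hx
  · intro x y
    obtain ⟨x', hx', hrx⟩ := hreach x
    obtain ⟨y', hy', hry⟩ := hreach y
    have h1 := (hRK x' hx' y' (hMZc x' hx' y' hy')).1
    exact ((hRR _ _ hrx).trans h1).trans (reach_symm hL hMM (hRR _ _ hry))

end Pool.Agent.Helper886.HCube
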