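import Mathlib

set_option autoImplicit false
open scoped BigOperators

namespace Pool.Agent.Helper886.HCube

/-- number of coordinates equal to `true` -/
def wt {m : ℕ} (x : Fin m → Bool) : ℕ := (Finset.univ.filter (fun i => x i = true)).card

/-- the product of two cubes of the same dimension `2 h + 1` -/
abbrev QQ (h : ℕ) : Type := (Fin (2 * h + 1) → Bool) × (Fin (2 * h + 1) → Bool)

/-- forward (counterclockwise) moves in `QQ h`: with `(u, v) = (wt x.1, wt x.2)`, the first block is
decreased when `v` is in the upper half and increased when `v` is in the lower half; the second block is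
increased when `u` is in the upper half, and decreased when `u` is in the lower half. -/
def Fwd (h : ℕ) (x y : QQ h) : Prop :=
  (h + 1 ≤ wt x.2 ∧ ∃ i, x.1 i = true ∧ y = (Function.update x.1 i false, x.2)) ∨
  (wt x.2 ≤ h ∧ ∃ i, x.1 i = false ∧ y = (Function.update x.1 i true, x.2)) ∨
  (h + 1 ≤ wt x.1 ∧ ∃ i, x.2 i = false ∧ y = (x.1, Function.update x.2 i true)) ∨
  (wt x.1 ≤ h ∧ ∃ i, x.2 i = true ∧ y = (x.1, Function.update x.2 i false))

/-- flip -/
def fl {m : ℕ} (i : Fin m) (x : Fin m → Bool) : Fin m → Bool := Function.update x i (!(x i))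

theorem fl_self {m : ℕ} (i : Fin m) (x : Fin m → Bool) : fl i x i = !(x i) := by simp [fl]
theorem fl_other {m : ℕ} (i j : Fin m) (x : Fin m → Bool) (h : j ≠ i) : fl i x j = x j := by
  simp [fl, Function.update_of_ne h]
theorem fl_fl {m : ℕ} (i : Fin m) (x : Fin m → Bool) : fl i (fl i x) = x := by
  funext j
  by_cases h : j = i
  · subst h; rw [fl_self, fl_self]; simp
  · rw [fl_other _ _ _ h, fl_other _ _ _ h]
theorem fl_ne {m : ℕ} (i : Fin m) (x : Fin m → Bool) : fl i x ≠ x := by
  intro h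
  have := congrFun h i
  rw [fl_self] at this
  simp at this
theorem fl_inj {m : ℕ} (i j : Fin m) (x : Fin m → Bool) (h : fl i x = fl j x) : i = j := by
  by_contra hne
  have := congrFun h i
  rw [fl_self, fl_other _ _ _ hne] at this
  simp at this

theorem wt_le {m : ℕ} (x : Fin m → Bool) : wt x ≤ m := by
  unfold wt
  exact (Finset.card_filter_le _ _).trans (by simp)

theorem wt_fl_true {m : ℕ} (i : Fin m) (x : Fin m → Bool) (h : x i = true) :
    wt (fl i x) + 1 = wt x := by
  unfold wt
  have : Finset.univ.filter (fun j => fl i x j = true) =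
      (Finset.univ.filter (fun j => x j = true)).erase i := by
    ext j
    simp only [Finset.mem_filter, Finset.mem_univ, true_and, Finset.mem_erase]
    by_cases hj : j = i
    · subst hj; rw [fl_self, h]; simp
    · rw [fl_other _ _ _ hj]; simp [hj]
  rw [this, Finset.card_erase_of_mem (by simp [h])]
  have : 0 < (Finset.univ.filter (fun j => x j = true)).card :=
    Finset.card_pos.2 ⟨i, by simp [h]⟩
  omega

theorem wt_fl_false {m : ℕ} (i : Fin m) (x : Fin m → Bool) (h : x i = false) :
    wt (fl i x) = wt x + 1 := by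
  have := wt_fl_true i (fl i x) (by rw [fl_self, h]; rfl)
  rw [fl_fl] at this
  omega

theorem sum_count {m : ℕ} (x : Fin m → Bool) (A B : ℝ) :
    ∑ i, (if x i = true then A else B) = wt x * A + (m - wt x) * B := by
  rw [Finset.sum_ite]
  simp only [Finset.sum_const, nsmul_eq_mul]
  have h1 : (Finset.univ.filter (fun i => ¬ x i = true)).card + wt x = m := by
    unfold wt
    rw [add_comm, Finset.card_filter_add_card_filter_not]
    simp
  have h2 : ((Finset.univ.filter (fun i => ¬ x i = true)).card : ℝ) = m - wt x := by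
    rw [eq_sub_iff_add_eq]; exact_mod_cast h1
  rw [h2]
  rfl

section
variable (h : ℕ)

/-- binomials -/
noncomputable def nu (w : ℕ) : ℝ := ((2 * h + 1).choose w : ℝ)

theorem nu_nonneg (w : ℕ) : 0 ≤ nu h w := by unfold nu; positivity
theorem nu_zero (w : ℕ) (hw : 2 * h + 1 < w) : nu h w = 0 := by
  unfold nu; rw [Nat.choose_eq_zero_of_lt hw]; simp
theorem nu_pos (w : ℕ) (hw : w ≤ 2 * h + 1) : 0 < nu h w := by
  unfold nu; exact_mod_cast Nat.choose_pos hw
theorem nu_symm (w : ℕ) (hw : w ≤ 2 * h + 1) : nu h (2 * h + 1 - w) = nu h w := by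
  unfold nu; rw [Nat.choose_symm hw]
theorem nu_succ (w : ℕ) (hw : w ≤ 2 * h + 1) :
    ((w : ℝ) + 1) * nu h (w + 1) = ((2 * h + 1 : ℕ) - (w : ℝ)) * nu h w := by
  unfold nu
  have h1 := Nat.choose_succ_right_eq (2 * h + 1) w
  have h2 : (((2 * h + 1).choose (w + 1) * (w + 1) : ℕ) : ℝ)
      = (((2 * h + 1).choose w * (2 * h + 1 - w) : ℕ) : ℝ) := by exact_mod_cast h1
  push_cast [Nat.cast_sub hw] at h2
  push_cast
  linarith
theorem nu_anti (w : ℕ) (hw : h ≤ w) : nu h (w + 1) ≤ nu h w := by
  by_cases h2 : w ≤ 2 * h + 1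
  · have h1 := nu_succ h w h2
    have h3 : ((2 * h + 1 : ℕ) : ℝ) - w ≤ (w : ℝ) + 1 := by
      have : ((2 * h + 1 : ℕ) : ℝ) ≤ ((2 * w + 1 : ℕ) : ℝ) := by exact_mod_cast (by omega)
      push_cast at this ⊢; linarith
    have h4 : (((w : ℝ) + 1)) * nu h (w + 1) ≤ ((w : ℝ) + 1) * nu h w := by
      rw [h1]; exact mul_le_mul_of_nonneg_right h3 (nu_nonneg h w)
    exact le_of_mul_le_mul_left h4 (by positivity)
  · rw [nu_zero h (w+1) (by omega)]; exact nu_nonneg h w

/-- the flow function -/
noncomputable def g (s t : ℕ) : ℝ :=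
  ∑ k ∈ Finset.range (2 * h + 2), nu h (s + k) * (nu h (t + k) - nu h (t + k + 1))

theorem g_id (s t : ℕ) : g h s t + g h (t + 1) s = nu h s * nu h t := by
  unfold g
  rw [← Finset.sum_add_distrib]
  have : ∀ k ∈ Finset.range (2 * h + 2),
      nu h (s + k) * (nu h (t + k) - nu h (t + k + 1)) +
        nu h (t + 1 + k) * (nu h (s + k) - nu h (s + k + 1))
      = (fun k => nu h (s + k) * nu h (t + k)) k - (fun k => nu h (s + k) * nu h (t + k)) (k + 1) := by
    intro k _
    simp only
    rw [show t + 1 + k = t + k + 1 by ring, show s + (k + 1) = s + k + 1 by ring,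
      show t + (k + 1) = t + k + 1 by ring]
    ring
  rw [Finset.sum_congr rfl this, Finset.sum_range_sub']
  simp only [add_zero]
  rw [nu_zero h (s + (2 * h + 2)) (by omega)]
  ring

theorem g_nonneg (s t : ℕ) (ht : h ≤ t) : 0 ≤ g h s t := by
  unfold g
  apply Finset.sum_nonneg
  intro k _
  apply mul_nonneg (nu_nonneg h _)
  have := nu_anti h (t + k) (by omega)
  linarith

theorem g_zero (s t : ℕ) (hs : 2 * h + 1 < s) : g h s t = 0 := by
  unfold g
  apply Finset.sum_eq_zero
  intro k _
  rw [nu_zero h (s + k) (by omega), zero_mul]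

/-- numerator for the edge between the levels `p-1` and `p` with other level `q` -/
noncomputable def Hh (p q : ℕ) : ℝ := g h (max p (2 * h + 2 - p)) (max q (2 * h + 1 - q))

/-- weight -/
noncomputable def w (p q : ℕ) : ℝ := Hh h p q / (p * nu h p * nu h q)

theorem Hh_nonneg (p q : ℕ) : 0 ≤ Hh h p q := g_nonneg h _ _ (by omega)

theorem w_nonneg (p q : ℕ) : 0 ≤ w h p q := by
  unfold w
  apply div_nonneg (Hh_nonneg h p q)
  have := nu_nonneg h p
  have := nu_nonneg h q
  positivity

theorem w_down (u q : ℕ) (hu : u ≤ 2 * h + 1) :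
    (u : ℝ) * w h u q = Hh h u q / (nu h u * nu h q) := by
  by_cases h0 : u = 0
  · subst h0
    have : Hh h 0 q = 0 := g_zero h _ _ (by omega)
    rw [this]; simp
  · unfold w
    have : (u : ℝ) ≠ 0 := by exact_mod_cast h0
    rw [mul_assoc, ← mul_div_assoc, mul_div_mul_left _ _ this]

theorem w_up (u q : ℕ) (hu : u ≤ 2 * h + 1) :
    (((2 * h + 1 : ℕ) : ℝ) - u) * w h (u + 1) q = Hh h (u + 1) q / (nu h u * nu h q) := by
  by_cases h0 : u = 2 * h + 1
  · subst h0
    have : Hh h (2 * h + 1 + 1) q = 0 := g_zero h _ _ (by omega)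
    rw [this]; simp
  · unfold w
    have h1 : (((2 * h + 1 : ℕ) : ℝ) - u) ≠ 0 := by
      rw [sub_ne_zero]
      intro hh
      exact h0 (by exact_mod_cast hh.symm)
    have h2 := nu_succ h u hu
    have h3 : (((u + 1 : ℕ) : ℝ)) * nu h (u + 1) = ((2 * h + 1 : ℕ) - (u : ℝ)) * nu h u := by
      push_cast at h2 ⊢; exact h2
    rw [h3, mul_assoc, ← mul_div_assoc, mul_div_mul_left _ _ h1]

theorem w_le (p q : ℕ) : w h p q ≤ 1 / ((h : ℝ) + 1) := by
  have hr : (0 : ℝ) ≤ 1 / ((h : ℝ) + 1) := by positivity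
  by_cases hp0 : p = 0
  · unfold w; subst hp0; simpa using hr
  by_cases hp : 2 * h + 1 < p
  · unfold w; rw [nu_zero h p hp]; simpa using hr
  by_cases hq : 2 * h + 1 < q
  · unfold w; rw [nu_zero h q hq]; simpa using hr
  push Not at hp hq
  have hnp := nu_pos h p hp
  have hnq := nu_pos h q hq
  have hpp : (0:ℝ) < p := by exact_mod_cast Nat.pos_of_ne_zero hp0
  unfold w Hh
  set m := max p (2 * h + 2 - p) with hm
  set V := max q (2 * h + 1 - q) with hV
  have h1 := g_id h m V
  have h2 := g_nonneg h (V + 1) m (by omega)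
  have h3 : g h m V ≤ nu h m * nu h V := by linarith
  have h4 : nu h V = nu h q := by
    rcases max_choice q (2 * h + 1 - q) with e | e
    · rw [hV, e]
    · rw [hV, e, nu_symm h q hq]
  have h5 : (m : ℝ) * nu h m = p * nu h p := by
    rcases max_choice p (2 * h + 2 - p) with e | e
    · rw [hm, e]
    · rw [hm, e]
      obtain ⟨r, rfl⟩ := Nat.exists_eq_succ_of_ne_zero hp0
      have h6 := nu_succ h r (by omega)
      have h7 := nu_symm h r (by omega)
      rw [show 2 * h + 2 - r.succ = 2 * h + 1 - r by omega, h7, Nat.cast_sub (by omega)]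
      rw [← h6]; push_cast; ring
  have h8 : ((h : ℝ) + 1) ≤ m := by
    have : h + 1 ≤ m := by omega
    exact_mod_cast this
  have h9 : (0:ℝ) < (h : ℝ) + 1 := by positivity
  rw [div_le_div_iff₀ (by positivity) h9, one_mul]
  calc g h m V * ((h:ℝ) + 1) ≤ (nu h m * nu h V) * m := by
        apply mul_le_mul h3 h8 h9.le
        exact mul_nonneg (nu_nonneg h _) (nu_nonneg h _)
    _ = p * nu h p * nu h q := by rw [h4, ← h5]; ring

/-- horizontal weight -/
noncomputable def al (x : QQ h) (i : Fin (2 * h + 1)) : ℝ :=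
  if x.1 i = true then (if h + 1 ≤ wt x.2 then w h (wt x.1) (wt x.2) else 0)
  else (if wt x.2 ≤ h then w h (wt x.1 + 1) (wt x.2) else 0)

/-- vertical weight -/
noncomputable def be (x : QQ h) (i : Fin (2 * h + 1)) : ℝ :=
  if x.2 i = true then (if wt x.1 ≤ h then w h (wt x.2) (wt x.1) else 0)
  else (if h + 1 ≤ wt x.1 then w h (wt x.2 + 1) (wt x.1) else 0)

theorem al_bd (x : QQ h) (i : Fin (2 * h + 1)) : 0 ≤ al h x i ∧ al h x i ≤ 1 / ((h : ℝ) + 1) := by
  have hr : (0 : ℝ) ≤ 1 / ((h : ℝ) + 1) := by positivity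
  unfold al
  split_ifs
  · exact ⟨w_nonneg h _ _, w_le h _ _⟩
  · exact ⟨le_rfl, hr⟩
  · exact ⟨w_nonneg h _ _, w_le h _ _⟩
  · exact ⟨le_rfl, hr⟩

theorem be_bd (x : QQ h) (i : Fin (2 * h + 1)) : 0 ≤ be h x i ∧ be h x i ≤ 1 / ((h : ℝ) + 1) := by
  have hr : (0 : ℝ) ≤ 1 / ((h : ℝ) + 1) := by positivity
  unfold be
  split_ifs
  · exact ⟨w_nonneg h _ _, w_le h _ _⟩
  · exact ⟨le_rfl, hr⟩
  · exact ⟨w_nonneg h _ _, w_le h _ _⟩
  · exact ⟨le_rfl, hr⟩

/-- the matrix -/
noncomputable def Wm (x y : QQ h) : ℝ :=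
  ∑ i, (if y = (fl i x.1, x.2) then al h x i else 0) +
    ∑ i, (if y = (x.1, fl i x.2) then be h x i else 0)

theorem Wm_cases (x y : QQ h) : Wm h x y = 0 ∨ (∃ i, y = (fl i x.1, x.2) ∧ Wm h x y = al h x i) ∨
    (∃ i, y = (x.1, fl i x.2) ∧ Wm h x y = be h x i) := by
  by_cases h1 : ∃ i, y = (fl i x.1, x.2)
  · obtain ⟨i, hi⟩ := h1
    right; left
    refine ⟨i, hi, ?_⟩
    unfold Wm
    rw [Finset.sum_eq_single i, Finset.sum_eq_zero, if_pos hi, add_zero]
    · intro j _
      rw [if_neg]
      rw [hi]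
      intro hh
      exact fl_ne i x.1 (congrArg Prod.fst hh)
    · intro j _ hj
      rw [if_neg]
      rw [hi]
      intro hh
      exact hj (fl_inj i j x.1 (congrArg Prod.fst hh)).symm
    · intro hh; exact absurd (Finset.mem_univ _) hh
  · by_cases h2 : ∃ i, y = (x.1, fl i x.2)
    · obtain ⟨i, hi⟩ := h2
      right; right
      refine ⟨i, hi, ?_⟩
      unfold Wm
      rw [Finset.sum_eq_zero, Finset.sum_eq_single i, if_pos hi, zero_add]
      · intro j _ hj
        rw [if_neg]
        rw [hi]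
        intro hh
        exact hj (fl_inj i j x.2 (congrArg Prod.snd hh)).symm
      · intro hh; exact absurd (Finset.mem_univ _) hh
      · intro j _
        rw [if_neg]
        exact fun hh => h1 ⟨j, hh⟩
    · left
      unfold Wm
      rw [Finset.sum_eq_zero, Finset.sum_eq_zero, add_zero]
      · intro j _
        rw [if_neg (fun hh => h2 ⟨j, hh⟩)]
      · intro j _
        rw [if_neg (fun hh => h1 ⟨j, hh⟩)]

theorem row_sum (x : QQ h) : ∑ y, Wm h x y = ∑ i, al h x i + ∑ i, be h x i := by
  unfold Wm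
  rw [Finset.sum_add_distrib]
  congr 1
  · rw [Finset.sum_comm]
    apply Finset.sum_congr rfl
    intro i _
    rw [Finset.sum_ite_eq']
    simp
  · rw [Finset.sum_comm]
    apply Finset.sum_congr rfl
    intro i _
    rw [Finset.sum_ite_eq']
    simp

theorem col_sum (y : QQ h) : ∑ x, Wm h x y =
    ∑ i, al h (fl i y.1, y.2) i + ∑ i, be h (y.1, fl i y.2) i := by
  unfold Wm
  rw [Finset.sum_add_distrib]
  congr 1
  · rw [Finset.sum_comm]
    apply Finset.sum_congr rfl
    intro i _
    have : ∀ x : QQ h, (y = (fl i x.1, x.2)) ↔ x = (fl i y.1, y.2) := by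
      intro x
      constructor
      · intro hh; rw [hh]; simp only [fl_fl]
      · intro hh; rw [hh]; simp only [fl_fl]
    simp_rw [this]
    rw [Finset.sum_ite_eq']
    simp
  · rw [Finset.sum_comm]
    apply Finset.sum_congr rfl
    intro i _
    have : ∀ x : QQ h, (y = (x.1, fl i x.2)) ↔ x = (y.1, fl i y.2) := by
      intro x
      constructor
      · intro hh; rw [hh]; simp only [fl_fl]
      · intro hh; rw [hh]; simp only [fl_fl]
    simp_rw [this]
    rw [Finset.sum_ite_eq']
    simp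

theorem al_row (x : QQ h) : ∑ i, al h x i =
    (if h + 1 ≤ wt x.2 then Hh h (wt x.1) (wt x.2) else Hh h (wt x.1 + 1) (wt x.2)) /
      (nu h (wt x.1) * nu h (wt x.2)) := by
  unfold al
  rw [sum_count]
  by_cases hv : h + 1 ≤ wt x.2
  · rw [if_pos hv, if_neg (by omega), if_pos hv, w_down h _ _ (wt_le _)]; ring
  · rw [if_neg hv, if_pos (by omega), if_neg hv, w_up h _ _ (wt_le _)]; ring

theorem be_row (x : QQ h) : ∑ i, be h x i =
    (if h + 1 ≤ wt x.1 then Hh h (wt x.2 + 1) (wt x.1) else Hh h (wt x.2) (wt x.1)) /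
      (nu h (wt x.1) * nu h (wt x.2)) := by
  unfold be
  rw [sum_count]
  by_cases hv : h + 1 ≤ wt x.1
  · rw [if_pos hv, if_neg (by omega), if_pos hv, w_up h _ _ (wt_le _)]; ring
  · rw [if_neg hv, if_pos (by omega), if_neg hv, w_down h _ _ (wt_le _)]; ring

theorem al_col (y : QQ h) : ∑ i, al h (fl i y.1, y.2) i =
    (if h + 1 ≤ wt y.2 then Hh h (wt y.1 + 1) (wt y.2) else Hh h (wt y.1) (wt y.2)) /
      (nu h (wt y.1) * nu h (wt y.2)) := by
  have : ∀ i, al h (fl i y.1, y.2) i = if y.1 i = true then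
      (if wt y.2 ≤ h then w h (wt y.1) (wt y.2) else 0)
      else (if h + 1 ≤ wt y.2 then w h (wt y.1 + 1) (wt y.2) else 0) := by
    intro i
    unfold al
    simp only [fl_self]
    by_cases hi : y.1 i = true
    · have := wt_fl_true i y.1 hi
      rw [this]
      simp [hi]
    · have hi' : y.1 i = false := by simpa using hi
      have := wt_fl_false i y.1 hi'
      rw [this]
      simp [hi']
  simp_rw [this]
  rw [sum_count]
  by_cases hv : h + 1 ≤ wt y.2
  · rw [if_pos hv, if_neg (by omega), if_pos hv, w_up h _ _ (wt_le _)]; ring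
  · rw [if_neg hv, if_pos (by omega), if_neg hv, w_down h _ _ (wt_le _)]; ring

theorem be_col (y : QQ h) : ∑ i, be h (y.1, fl i y.2) i =
    (if h + 1 ≤ wt y.1 then Hh h (wt y.2) (wt y.1) else Hh h (wt y.2 + 1) (wt y.1)) /
      (nu h (wt y.1) * nu h (wt y.2)) := by
  have : ∀ i, be h (y.1, fl i y.2) i = if y.2 i = true then
      (if h + 1 ≤ wt y.1 then w h (wt y.2) (wt y.1) else 0)
      else (if wt y.1 ≤ h then w h (wt y.2 + 1) (wt y.1) else 0) := by
    intro i
    unfold be
    simp only [fl_self]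
    by_cases hi : y.2 i = true
    · have := wt_fl_true i y.2 hi
      rw [this]
      simp [hi]
    · have hi' : y.2 i = false := by simpa using hi
      have := wt_fl_false i y.2 hi'
      rw [this]
      simp [hi']
  simp_rw [this]
  rw [sum_count]
  by_cases hv : h + 1 ≤ wt y.1
  · rw [if_pos hv, if_neg (by omega), if_pos hv, w_down h _ _ (wt_le _)]; ring
  · rw [if_neg hv, if_pos (by omega), if_neg hv, w_up h _ _ (wt_le _)]; ring

theorem row_id (u v : ℕ) (hu : u ≤ 2 * h + 1) (hv : v ≤ 2 * h + 1) :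
    (if h + 1 ≤ v then Hh h u v else Hh h (u + 1) v) / (nu h u * nu h v)
    + (if h + 1 ≤ u then Hh h (v + 1) u else Hh h v u) / (nu h u * nu h v) = 1 := by
  have hn : nu h u * nu h v ≠ 0 := (mul_pos (nu_pos h u hu) (nu_pos h v hv)).ne'
  rw [← add_div, div_eq_one_iff_eq hn]
  unfold Hh
  by_cases h1 : h + 1 ≤ v <;> by_cases h2 : h + 1 ≤ u
  · rw [if_pos h1, if_pos h2, max_eq_left (by omega), max_eq_left (by omega),
      max_eq_left (by omega), max_eq_left (by omega)]
    exact g_id h u v
  · rw [if_pos h1, if_neg h2, max_eq_right (by omega), max_eq_left (by omega : 2 * h + 1 - v ≤ v),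
      max_eq_left (by omega), max_eq_right (by omega : u ≤ 2 * h + 1 - u)]
    have := g_id h v (2 * h + 1 - u)
    rw [nu_symm h u hu, show 2 * h + 1 - u + 1 = 2 * h + 2 - u by omega] at this
    linarith
  · rw [if_neg h1, if_pos h2, max_eq_left (by omega), max_eq_right (by omega : v ≤ 2 * h + 1 - v),
      max_eq_right (by omega), max_eq_left (by omega : 2 * h + 1 - u ≤ u)]
    have := g_id h (2 * h + 1 - v) u
    rw [nu_symm h v hv] at this
    rw [show 2 * h + 2 - (v + 1) = 2 * h + 1 - v by omega]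
    linarith
  · rw [if_neg h1, if_neg h2, max_eq_right (by omega), max_eq_right (by omega : v ≤ 2 * h + 1 - v),
      max_eq_right (by omega), max_eq_right (by omega : u ≤ 2 * h + 1 - u)]
    have := g_id h (2 * h + 1 - u) (2 * h + 1 - v)
    rw [nu_symm h v hv, nu_symm h u hu] at this
    rw [show 2 * h + 2 - (u + 1) = 2 * h + 1 - u by omega,
      show 2 * h + 2 - v = 2 * h + 1 - v + 1 by omega]
    linarith

theorem col_id (u v : ℕ) (hu : u ≤ 2 * h + 1) (hv : v ≤ 2 * h + 1) :
    (if h + 1 ≤ v then Hh h (u + 1) v else Hh h u v) / (nu h u * nu h v)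
    + (if h + 1 ≤ u then Hh h v u else Hh h (v + 1) u) / (nu h u * nu h v) = 1 := by
  have hn : nu h u * nu h v ≠ 0 := (mul_pos (nu_pos h u hu) (nu_pos h v hv)).ne'
  rw [← add_div, div_eq_one_iff_eq hn]
  unfold Hh
  by_cases h1 : h + 1 ≤ v <;> by_cases h2 : h + 1 ≤ u
  · rw [if_pos h1, if_pos h2, max_eq_left (by omega), max_eq_left (by omega),
      max_eq_left (by omega), max_eq_left (by omega)]
    have := g_id h v u
    linarith
  · rw [if_pos h1, if_neg h2, max_eq_right (by omega), max_eq_left (by omega : 2 * h + 1 - v ≤ v),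
      max_eq_left (by omega), max_eq_right (by omega : u ≤ 2 * h + 1 - u)]
    have := g_id h (2 * h + 1 - u) v
    rw [nu_symm h u hu] at this
    rw [show 2 * h + 2 - (u + 1) = 2 * h + 1 - u by omega]
    linarith
  · rw [if_neg h1, if_pos h2, max_eq_left (by omega), max_eq_right (by omega : v ≤ 2 * h + 1 - v),
      max_eq_right (by omega), max_eq_left (by omega : 2 * h + 1 - u ≤ u)]
    have := g_id h u (2 * h + 1 - v)
    rw [nu_symm h v hv] at this
    rw [show 2 * h + 2 - v = 2 * h + 1 - v + 1 by omega]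
    linarith
  · rw [if_neg h1, if_neg h2, max_eq_right (by omega), max_eq_right (by omega : v ≤ 2 * h + 1 - v),
      max_eq_right (by omega), max_eq_right (by omega : u ≤ 2 * h + 1 - u)]
    have := g_id h (2 * h + 1 - v) (2 * h + 1 - u)
    rw [nu_symm h v hv, nu_symm h u hu] at this
    rw [show 2 * h + 2 - (v + 1) = 2 * h + 1 - v by omega,
      show 2 * h + 2 - u = 2 * h + 1 - u + 1 by omega]
    linarith

end

/-- TARGET. There is a doubly stochastic matrix supported on the forward moves, with small entries. -/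
theorem flow (h : ℕ) : ∃ W : QQ h → QQ h → ℝ, (∀ x y, 0 ≤ W x y) ∧ (∀ x, ∑ y, W x y = 1) ∧
    (∀ y, ∑ x, W x y = 1) ∧ (∀ x y, W x y ≠ 0 → Fwd h x y) ∧
    (∀ x y, W x y ≤ 1 / ((h : ℝ) + 1)) := by
  have hr : (0 : ℝ) ≤ 1 / ((h : ℝ) + 1) := by positivity
  refine ⟨Wm h, ?_, ?_, ?_, ?_, ?_⟩
  · intro x y
    rcases Wm_cases h x y with e | ⟨i, _, e⟩ | ⟨i, _, e⟩
    · rw [e]
    · rw [e]; exact (al_bd h x i).1
    · rw [e]; exact (be_bd h x i).1
  · intro x
    rw [row_sum, al_row, be_row]
    exact row_id h _ _ (wt_le _) (wt_le _)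
  · intro y
    rw [col_sum, al_col, be_col]
    exact col_id h _ _ (wt_le _) (wt_le _)
  · intro x y hne
    rcases Wm_cases h x y with e | ⟨i, hi, e⟩ | ⟨i, hi, e⟩
    · exact absurd e hne
    · rw [e] at hne
      unfold al at hne
      by_cases hx : x.1 i = true
      · rw [if_pos hx] at hne
        have hv : h + 1 ≤ wt x.2 := by
          by_contra hcon; rw [if_neg hcon] at hne; exact hne rfl
        left
        refine ⟨hv, i, hx, ?_⟩
        rw [hi]; simp [fl, hx]
      · rw [if_neg hx] at hne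
        have hx' : x.1 i = false := by simpa using hx
        have hv : wt x.2 ≤ h := by
          by_contra hcon; rw [if_neg hcon] at hne; exact hne rfl
        right; left
        refine ⟨hv, i, hx', ?_⟩
        rw [hi]; simp [fl, hx']
    · rw [e] at hne
      unfold be at hne
      by_cases hx : x.2 i = true
      · rw [if_pos hx] at hne
        have hv : wt x.1 ≤ h := by
          by_contra hcon; rw [if_neg hcon] at hne; exact hne rfl
        right; right; right
        refine ⟨hv, i, hx, ?_⟩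
        rw [hi]; simp [fl, hx]
      · rw [if_neg hx] at hne
        have hx' : x.2 i = false := by simpa using hx
        have hv : h + 1 ≤ wt x.1 := by
          by_contra hcon; rw [if_neg hcon] at hne; exact hne rfl
        right; right; left
        refine ⟨hv, i, hx', ?_⟩
        rw [hi]; simp [fl, hx']
  · intro x y
    rcases Wm_cases h x y with e | ⟨i, _, e⟩ | ⟨i, _, e⟩
    · rw [e]; exact hr
    · rw [e]; exact (al_bd h x i).2
    · rw [e]; exact (be_bd h x i).2

end Pool.Agent.Helper886.HCube
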