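import Pool.Agent.Helper886.HCube.Flow
import Pool.Agent.Helper886.HCube.Fink

set_option autoImplicit false

namespace Pool.Agent.Helper886.HCube

open Function

theorem wt_update_true {m : ℕ} (x : Fin m → Bool) (i : Fin m) (h : x i = false) :
    wt (update x i true) = wt x + 1 := by
  unfold wt
  have : Finset.univ.filter (fun j => update x i true j = true) =
      insert i (Finset.univ.filter (fun j => x j = true)) := by
    ext j
    by_cases hj : j = i
    · subst hj; simp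
    · simp [hj]
  rw [this, Finset.card_insert_of_notMem (by simp [h])]

theorem wt_update_false {m : ℕ} (x : Fin m → Bool) (i : Fin m) (h : x i = true) :
    wt (update x i false) + 1 = wt x := by
  have h1 := wt_update_true (update x i false) i (by simp)
  rw [update_idem] at h1
  rw [← h1]
  congr 1
  rw [← h, update_eq_self]

theorem wt_flip {m : ℕ} (x : Fin m → Bool) (i : Fin m) :
    wt (flip i x) = wt x + 1 ∨ wt (flip i x) + 1 = wt x := by
  unfold flip
  cases h : x i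
  · left; simpa using wt_update_true x i h
  · right; simpa using wt_update_false x i h

/-- the cut set -/
def ZZ (h : ℕ) : Set (QQ h) := {q | wt q.1 = h + 1 ∧ h + 1 ≤ wt q.2}

/-- rank along the forward moves, reset at the cut -/
def rk (h : ℕ) (q : QQ h) : ℕ :=
  if wt q.1 ≤ h then
    if wt q.2 ≤ h then (4 * h + 3) + (wt q.1 + (2 * h + 1 - wt q.2))
    else (2 * h + 1 - wt q.1) + (2 * h + 1 - wt q.2)
  else
    if wt q.2 ≤ h then 2 * (4 * h + 3) + (wt q.1 + wt q.2)
    else 3 * (4 * h + 3) + ((2 * h + 1 - wt q.1) + wt q.2)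

theorem rk_le (h : ℕ) (q : QQ h) : rk h q ≤ 4 * (4 * h + 3) := by
  have h1 := wt_le q.1
  have h2 := wt_le q.2
  unfold rk
  split_ifs <;> omega

/-- how the weights change under a forward move -/
theorem fwd_wt {h : ℕ} {q q' : QQ h} (hf : Fwd h q q') :
    (h + 1 ≤ wt q.2 ∧ wt q'.1 + 1 = wt q.1 ∧ wt q'.2 = wt q.2) ∨
    (wt q.2 ≤ h ∧ wt q'.1 = wt q.1 + 1 ∧ wt q'.2 = wt q.2) ∨
    (h + 1 ≤ wt q.1 ∧ wt q'.2 = wt q.2 + 1 ∧ wt q'.1 = wt q.1) ∨
    (wt q.1 ≤ h ∧ wt q'.2 + 1 = wt q.2 ∧ wt q'.1 = wt q.1) := by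
  rcases hf with ⟨h1, i, hi, rfl⟩ | ⟨h1, i, hi, rfl⟩ | ⟨h1, i, hi, rfl⟩ | ⟨h1, i, hi, rfl⟩
  · left; exact ⟨h1, wt_update_false _ _ hi, rfl⟩
  · right; left; exact ⟨h1, wt_update_true _ _ hi, rfl⟩
  · right; right; left; exact ⟨h1, wt_update_true _ _ hi, rfl⟩
  · right; right; right; exact ⟨h1, wt_update_false _ _ hi, rfl⟩

theorem rk_lt {h : ℕ} {q q' : QQ h} (hf : Fwd h q q') (hq : q ∉ ZZ h) : rk h q < rk h q' := by
  have h1 := wt_le q.1
  have h2 := wt_le q.2
  have h3 := wt_le q'.1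
  have h4 := wt_le q'.2
  have hq' : ¬ (wt q.1 = h + 1 ∧ h + 1 ≤ wt q.2) := hq
  have hw := fwd_wt hf
  unfold rk
  split_ifs <;> omega

theorem fwd_hits {h : ℕ} (q : ℕ → QQ h) (hf : ∀ k, Fwd h (q k) (q (k + 1))) :
    ∃ k, q (k + 1) ∈ ZZ h := by
  by_contra hno
  push Not at hno
  have h1 : ∀ k, k ≤ rk h (q (k + 1)) := by
    intro k
    induction k with
    | zero => exact Nat.zero_le _
    | succ k ih => exact lt_of_le_of_lt ih (rk_lt (hf (k + 1)) (hno k))
  have h2 := h1 (4 * (4 * h + 3) + 1)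
  have h3 := rk_le h (q (4 * (4 * h + 3) + 1 + 1))
  omega

/-- parity of a point of `QQ h` -/
def piQ {h : ℕ} (q : QQ h) : Bool := decide (Even (wt q.1 + wt q.2))

theorem fwd_piQ {h : ℕ} {q q' : QQ h} (hf : Fwd h q q') : piQ q ≠ piQ q' := by
  have hw := fwd_wt hf
  unfold piQ
  intro he
  rw [decide_eq_decide] at he
  rw [Nat.even_iff, Nat.even_iff] at he
  omega

theorem fwd_ne {h : ℕ} {q q' : QQ h} (hf : Fwd h q q') : q ≠ q' := by
  rintro rfl
  exact fwd_piQ hf rfl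

end Pool.Agent.Helper886.HCube
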