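import Pool.Agent.Helper886.HCube.Data

set_option autoImplicit false

namespace Pool.Agent.Helper886.HCube

open Function

section

variable {c d h : ℕ}

theorem exists_L0 (c h : ℕ) (j0 : Fin d) : ∃ L0 : VV c d h → VV c d h, Inv (T0 c d h) L0 ∧
    (∀ x ∈ T0 c d h, ∃ i, L0 x = flip i x) ∧ Conn (T0 c d h) (flip (.inl (.inr j0))) L0 := by
  rw [T0_eq]
  have hj : (Sum.inl (Sum.inr j0) : Idx c d h) ∈ S0 c d h := by
    simp only [S0, Finset.mem_filter, Finset.mem_univ, true_and]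
    intro j hj
    simp at hj
  obtain ⟨M, h1, h2, h3⟩ := fink (S0 c d h) ⟨_, hj⟩ (fun _ => false)
    (flip (.inl (.inr j0))) (inv_flip hj)
  refine ⟨M, h1, ?_, h3⟩
  intro x hx
  obtain ⟨i, _, hi⟩ := h2 x hx
  exact ⟨i, hi⟩

theorem ZZ_nonempty (h : ℕ) : ∃ q : QQ h, q ∈ ZZ h := by
  refine ⟨(fun i => decide (i.1 < h + 1), fun _ => true), ?_, ?_⟩
  · show wt _ = h + 1
    unfold wt
    simp only [decide_eq_true_eq]
    have : (Finset.univ.filter (fun i : Fin (2 * h + 1) => i.1 < h + 1)).card =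
        (Finset.range (h + 1)).card := by
      refine Finset.card_bij (fun i _ => i.1) ?_ ?_ ?_
      · intro i hi
        simpa using hi
      · intro i _ j _ hij
        exact Fin.ext hij
      · intro k hk
        rw [Finset.mem_range] at hk
        exact ⟨⟨k, by omega⟩, by simpa using hk, rfl⟩
    rw [this, Finset.card_range]
  · show h + 1 ≤ wt _
    unfold wt
    simp
    omega

theorem LL_invol {L0 : VV c d h → VV c d h} (hL0 : Inv (T0 c d h) L0) (ch : Ch c d h)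
    (x : VV c d h) : LL L0 ch (LL L0 ch x) = x := by
  by_cases hg : gp x = fun _ => false
  · rw [LL_zero L0 ch hg, LL_zero L0 ch (hL0.maps x hg)]
    exact hL0.invol x hg
  · have h1 := LL_ne L0 ch (x := LL L0 ch x) (by rw [LL_ne L0 ch hg]; exact hg)
    rw [h1]
    have h2 : LL L0 ch x = mk (gp x) (pp x) ((ch.1 (⟨gp x, hg⟩, pp x)).1 (qp x)) := LL_ne L0 ch hg
    have h3 : ∀ y : VV c d h, y = mk (gp x) (pp x) ((ch.1 (⟨gp x, hg⟩, pp x)).1 (qp x)) →
        ∀ hy : gp y ≠ fun _ => false,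
        mk (gp y) (pp y) ((ch.1 (⟨gp y, hy⟩, pp y)).1 (qp y)) = x := by
      rintro y rfl hy
      show mk (gp x) (pp x) ((ch.1 (⟨gp x, hg⟩, pp x)).1
        ((ch.1 (⟨gp x, hg⟩, pp x)).1 (qp x))) = x
      rw [(ch.1 (⟨gp x, hg⟩, pp x)).2.1, mk_eta]
    exact h3 _ h2 _

theorem LL_qp_ne (L0 : VV c d h → VV c d h) (ch : Ch c d h)
    {x : VV c d h} (hg : gp x ≠ fun _ => false) : qp (LL L0 ch x) ≠ qp x := by
  rw [LL_ne L0 ch hg]
  intro he
  have he' : (ch.1 (⟨gp x, hg⟩, pp x)).1 (qp x) = qp x := he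
  have := oinv_ne (fun _ _ hf => fwd_piQ hf) (ch.1 (⟨gp x, hg⟩, pp x)) (qp x)
  rw [he'] at this
  exact this rfl

theorem LL_fpf {L0 : VV c d h → VV c d h} (hL0 : Inv (T0 c d h) L0) (ch : Ch c d h)
    (x : VV c d h) : LL L0 ch x ≠ x := by
  by_cases hg : gp x = fun _ => false
  · rw [LL_zero L0 ch hg]
    exact hL0.ne x hg
  · intro he
    exact LL_qp_ne L0 ch hg (by rw [he])

theorem LL_flip {L0 : VV c d h → VV c d h} (hL0f : ∀ x ∈ T0 c d h, ∃ i, L0 x = flip i x)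
    (ch : Ch c d h) (x : VV c d h) : ∃ i, LL L0 ch x = flip i x := by
  by_cases hg : gp x = fun _ => false
  · rw [LL_zero L0 ch hg]
    exact hL0f x hg
  · rw [LL_ne L0 ch hg]
    set l := ch.1 (⟨gp x, hg⟩, pp x) with hl
    by_cases hq : piQ (qp x) = sG (gp x) (pp x)
    · obtain ⟨i, hi⟩ := fwd_flip (gp x) (pp x) (l.2.2.1 (qp x) hq)
      rw [mk_eta] at hi
      exact ⟨i, hi⟩
    · obtain ⟨i, hi⟩ := fwd_flip (gp x) (pp x) (l.2.2.2 (qp x) hq)
      rw [mk_eta] at hi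
      exact ⟨i, (flip_flip i _).symm.trans (congrArg (flip i) hi.symm)⟩

theorem bb_qp (j0 : Fin d) (ch : Ch c d h) (x : VV c d h) : qp (bb j0 ch x) = qp x := by
  by_cases hz : qp x ∈ ZZ h
  · rw [bb_cut j0 ch hz]
  · by_cases hg : gp x = fun _ => false
    · rw [bb_zero j0 ch hz hg, qp_flip_inl]
    · rw [bb_ne j0 ch hz hg]; rfl

theorem bb_gp (j0 : Fin d) (ch : Ch c d h) (x : VV c d h) : gp (bb j0 ch x) = gp x := by
  by_cases hz : qp x ∈ ZZ h
  · rw [bb_cut j0 ch hz]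
  · by_cases hg : gp x = fun _ => false
    · rw [bb_zero j0 ch hz hg, gp_flip_inlr]
    · rw [bb_ne j0 ch hz hg]; rfl

theorem bb_invol (j0 : Fin d) (ch : Ch c d h) (x : VV c d h) : bb j0 ch (bb j0 ch x) = x := by
  by_cases hz : qp x ∈ ZZ h
  · rw [bb_cut j0 ch hz, bb_cut j0 ch hz]
  · have hz' : qp (bb j0 ch x) ∉ ZZ h := by rw [bb_qp]; exact hz
    by_cases hg : gp x = fun _ => false
    · have hg' : gp (bb j0 ch x) = fun _ => false := by rw [bb_gp]; exact hg
      rw [bb_zero j0 ch hz' hg', bb_zero j0 ch hz hg, flip_flip]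
    · have hg' : gp (bb j0 ch x) ≠ fun _ => false := by rw [bb_gp]; exact hg
      rw [bb_ne j0 ch hz' hg']
      have h2 := bb_ne j0 ch hz hg
      have h3 : ∀ y : VV c d h,
          y = mk (gp x) ((ch.2 (⟨gp x, hg⟩, ⟨qp x, hz⟩)).1 (pp x)) (qp x) →
          ∀ (hy : gp y ≠ fun _ => false) (hy' : qp y ∉ ZZ h),
          mk (gp y) ((ch.2 (⟨gp y, hy⟩, ⟨qp y, hy'⟩)).1 (pp y)) (qp y) = x := by
        rintro y rfl hy hy'
        show mk (gp x) ((ch.2 (⟨gp x, hg⟩, ⟨qp x, hz⟩)).1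
          ((ch.2 (⟨gp x, hg⟩, ⟨qp x, hz⟩)).1 (pp x))) (qp x) = x
        rw [(ch.2 (⟨gp x, hg⟩, ⟨qp x, hz⟩)).2.1, mk_eta]
      exact h3 _ h2 _ _

theorem bb_pp_ne (j0 : Fin d) (ch : Ch c d h) {x : VV c d h} (hz : qp x ∉ ZZ h)
    (hg : gp x ≠ fun _ => false) : (ch.2 (⟨gp x, hg⟩, ⟨qp x, hz⟩)).1 (pp x) ≠ pp x := by
  intro he
  have := oinv_ne (fun _ _ hf => RP_piP hf) (ch.2 (⟨gp x, hg⟩, ⟨qp x, hz⟩)) (pp x)
  rw [he] at this
  exact this rfl

theorem bb_fix (j0 : Fin d) (ch : Ch c d h) (x : VV c d h) : bb j0 ch x = x ↔ qp x ∈ ZZ h := by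
  constructor
  · intro he
    by_contra hz
    by_cases hg : gp x = fun _ => false
    · rw [bb_zero j0 ch hz hg] at he
      exact flip_ne_self _ _ he
    · rw [bb_ne j0 ch hz hg] at he
      exact bb_pp_ne j0 ch hz hg (congrArg pp he)
  · intro hz
    exact bb_cut j0 ch hz

theorem bb_flip (j0 : Fin d) (ch : Ch c d h) {x : VV c d h} (hz : qp x ∉ ZZ h) :
    ∃ i, bb j0 ch x = flip i x := by
  by_cases hg : gp x = fun _ => false
  · exact ⟨_, bb_zero j0 ch hz hg⟩
  · rw [bb_ne j0 ch hz hg]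
    set l := ch.2 (⟨gp x, hg⟩, ⟨qp x, hz⟩) with hl
    have hr : RP (pp x) (l.1 (pp x)) := by
      by_cases hp : piP (pp x) = true
      · exact l.2.2.1 _ hp
      · exact RP_symm (l.2.2.2 _ hp)
    obtain ⟨i, hi⟩ := hr
    refine ⟨.inl (.inr i), ?_⟩
    rw [hi, flip_mk_p, mk_eta]

theorem bool4 : ∀ t1 t2 t3 t4 : Bool, t1 = t3 → t1 ≠ t2 → t3 ≠ t4 → t2 = t4 := by decide

theorem bool3 : ∀ t1 t2 t3 : Bool, ¬ t2 = t3 → t1 ≠ t2 → t1 = t3 := by decide

/-- in the slices with nonzero index every alternating path reaches the cut -/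
theorem reach_cut (L0 : VV c d h → VV c d h) (j0 : Fin d) (ch : Ch c d h) (x : VV c d h)
    (hg : gp x ≠ fun _ => false) (hx : piQ (qp x) = sG (gp x) (pp x)) :
    ∃ y, qp y ∈ ZZ h ∧ Reach (LL L0 ch) (bb j0 ch) x y := by
  by_contra hno
  push Not at hno
  set f : ℕ → VV c d h := fun k => (bb j0 ch ∘ LL L0 ch)^[k] x with hf
  have hfs : ∀ k, f (k + 1) = bb j0 ch (LL L0 ch (f k)) := by
    intro k
    simp only [hf]
    rw [iterate_succ_apply']
    rfl
  have hreach : ∀ k, Reach (LL L0 ch) (bb j0 ch) x (f k) := fun k => reach_iter x k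
  have hreach' : ∀ k, Reach (LL L0 ch) (bb j0 ch) x (LL L0 ch (f k)) := fun k =>
    (hreach k).tail (Or.inl rfl)
  have hinv : ∀ k, gp (f k) ≠ (fun _ => false) ∧ piQ (qp (f k)) = sG (gp (f k)) (pp (f k)) := by
    intro k
    induction k with
    | zero => exact ⟨hg, hx⟩
    | succ k ih =>
      obtain ⟨h1, h2⟩ := ih
      have h3 := LL_ne L0 ch h1
      have hzL : qp (LL L0 ch (f k)) ∉ ZZ h := fun hz => hno _ hz (hreach' k)
      have hgL : gp (LL L0 ch (f k)) ≠ fun _ => false := by rw [h3]; exact h1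
      rw [hfs k]
      refine ⟨by rw [bb_gp]; exact hgL, ?_⟩
      have hfw : Fwd h (qp (f k)) (qp (LL L0 ch (f k))) := by
        rw [h3]
        exact (ch.1 (⟨gp (f k), h1⟩, pp (f k))).2.2.1 (qp (f k)) h2
      have h5 : piQ (qp (f k)) ≠ piQ (qp (LL L0 ch (f k))) := fwd_piQ hfw
      have h6 : sG (gp (LL L0 ch (f k))) (pp (LL L0 ch (f k))) = sG (gp (f k)) (pp (f k)) := by
        rw [h3]; rfl
      have h7 := bb_ne j0 ch hzL hgL
      have h8 : sG (gp (LL L0 ch (f k))) (pp (LL L0 ch (f k))) ≠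
          sG (gp (bb j0 ch (LL L0 ch (f k)))) (pp (bb j0 ch (LL L0 ch (f k)))) := by
        rw [h7]
        show sG (gp (LL L0 ch (f k))) (pp (LL L0 ch (f k))) ≠
          sG (gp (LL L0 ch (f k))) ((ch.2 (⟨gp (LL L0 ch (f k)), hgL⟩,
            ⟨qp (LL L0 ch (f k)), hzL⟩)).1 (pp (LL L0 ch (f k))))
        apply sG_RP
        set l := ch.2 (⟨gp (LL L0 ch (f k)), hgL⟩, ⟨qp (LL L0 ch (f k)), hzL⟩) with hl
        by_cases hp : piP (pp (LL L0 ch (f k))) = true
        · exact l.2.2.1 _ hp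
        · exact RP_symm (l.2.2.2 _ hp)
      rw [bb_qp]
      rw [h6] at h8
      exact bool4 _ _ _ _ h2 h5 h8
  have hfwd : ∀ k, Fwd h (qp (f k)) (qp (f (k + 1))) := by
    intro k
    obtain ⟨h1, h2⟩ := hinv k
    rw [hfs k, bb_qp, LL_ne L0 ch h1]
    exact (ch.1 (⟨gp (f k), h1⟩, pp (f k))).2.2.1 (qp (f k)) h2
  obtain ⟨k, hk⟩ := fwd_hits (fun k => qp (f k)) hfwd
  exact hno _ hk (hreach (k + 1))

theorem main_ext {L0 : VV c d h → VV c d h} (j0 : Fin d) (hL0 : Inv (T0 c d h) L0)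
    (hL0c : Conn (T0 c d h) (flip (.inl (.inr j0))) L0) (ch : Ch c d h) :
    ∃ M : VV c d h → VV c d h, (∀ x, M (M x) = x) ∧
      (∀ x, qp x ∉ ZZ h → M x = bb j0 ch x) ∧ (∀ x, qp (M x) = qp x) ∧
      (∀ x, ∃ i, M x = flip i x) ∧ ∀ x y, Reach (LL L0 ch) M x y := by
  classical
  obtain ⟨q0, hq0⟩ := ZZ_nonempty h
  set A : {q : QQ h // q ∈ ZZ h} → Set (VV c d h) := fun z => {x | qp x = z.1} with hA
  have hUS : ∀ x, x ∈ US A Finset.univ ↔ qp x ∈ ZZ h := by
    intro x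
    constructor
    · rintro ⟨z, _, hz⟩
      have : qp x = z.1 := hz
      rw [this]; exact z.2
    · intro hx
      exact ⟨⟨qp x, hx⟩, Finset.mem_univ _, rfl⟩
  have hj : (Sum.inl (Sum.inr j0) : Idx c d h) ∈ S1 c d h := by
    simp [S1]
  have hA' : ∀ z, A z = subcube (S1 c d h) (mk (fun _ => false) (fun _ => false) z.1) :=
    fun z => piece_eq z.1
  -- slice zero reaches the cut
  have hT0 : ∀ x ∈ T0 c d h, ∀ y, Reach (flip (.inl (.inr j0))) L0 x y → y ∈ T0 c d h := by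
    intro x hx y hr
    induction hr with
    | refl => exact hx
    | @tail u v _ hs ih =>
      rcases hs with hs | hs
      · rw [hs]
        show gp _ = _
        rw [gp_flip_inlr]; exact ih
      · rw [hs]; exact hL0.maps u ih
  have hreach0 : ∀ x ∈ T0 c d h, ∃ y, qp y ∈ ZZ h ∧ Reach (LL L0 ch) (bb j0 ch) x y := by
    intro x hx
    have hy0 : mk (fun _ => false) (fun _ => false) q0 ∈ T0 c d h := rfl
    have hr := hL0c x hx _ hy0
    revert hx
    induction hr using Relation.ReflTransGen.head_induction_on with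
    | refl => intro _; exact ⟨mk (fun _ => false) (fun _ => false) q0, hq0, .refl⟩
    | @head u v hs _ ih =>
      intro hu
      by_cases hz : qp u ∈ ZZ h
      · exact ⟨u, hz, .refl⟩
      · have hv : v ∈ T0 c d h := hT0 u hu v (.single hs)
        obtain ⟨y, hy, hr⟩ := ih hv
        refine ⟨y, hy, Relation.ReflTransGen.head ?_ hr⟩
        rcases hs with hs | hs
        · right; rw [hs, bb_zero j0 ch hz hu]
        · left; rw [hs, LL_zero L0 ch hu]
  have key := extend (E := fun x x' => ∃ i ∈ S1 c d h, x' = flip i x) (LL L0 ch) (bb j0 ch)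
    (LL_invol hL0 ch) (LL_fpf hL0 ch) (bb_invol j0 ch) A
    (fun z z' hne x hx hx' => hne (Subtype.ext (by
      have h1 : qp x = z.1 := hx
      have h2 : qp x = z'.1 := hx'
      rw [← h1, ← h2])))
    (fun x => by rw [hUS]; exact bb_fix j0 ch x)
    (fun x => by
      by_cases hg : gp x = fun _ => false
      · obtain ⟨y, hy, hr⟩ := hreach0 x hg
        exact ⟨y, (hUS y).mpr hy, hr⟩
      · by_cases hx : piQ (qp x) = sG (gp x) (pp x)
        · obtain ⟨y, hy, hr⟩ := reach_cut L0 j0 ch x hg hx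
          exact ⟨y, (hUS y).mpr hy, hr⟩
        · have h1 := LL_ne L0 ch hg
          have hg' : gp (LL L0 ch x) ≠ fun _ => false := by rw [h1]; exact hg
          have h2 : piQ (qp (LL L0 ch x)) ≠ piQ (qp x) := by
            rw [h1]
            exact oinv_ne (fun _ _ hf => fwd_piQ hf) (ch.1 (⟨gp x, hg⟩, pp x)) (qp x)
          have h3 : sG (gp (LL L0 ch x)) (pp (LL L0 ch x)) = sG (gp x) (pp x) := by
            rw [h1]; rfl
          obtain ⟨y, hy, hr⟩ := reach_cut L0 j0 ch (LL L0 ch x) hg' (by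
            rw [h3]
            exact bool3 _ _ _ hx h2)
          exact ⟨y, (hUS y).mpr hy, Relation.ReflTransGen.head (Or.inl rfl) hr⟩)
    (fun z => by rw [hA' z]; exact even_of_inv (inv_flip hj))
    (fun z => by rw [hA' z]; exact fink (S1 c d h) ⟨_, hj⟩ _)
    ⟨q0, hq0⟩ (T0 c d h)
    (fun x hx => by rw [LL_zero L0 ch hx]; exact hL0.maps x hx)
    (fun x hx => by
      show gp _ = _
      rw [bb_gp]; exact hx)
    (flip (.inl (.inr j0)))
    (fun z x hx hxT => ⟨by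
      show qp _ = _
      rw [qp_flip_inl]; exact hx, by
      show gp _ = _
      rw [gp_flip_inlr]; exact hxT⟩)
    (fun x hx y hy => by
      have hr := hL0c x hx y hy
      revert hx
      induction hr using Relation.ReflTransGen.head_induction_on with
      | refl => intro _; exact .refl
      | @head u v hs _ ih =>
        intro hu
        have hv : v ∈ T0 c d h := hT0 u hu v (.single hs)
        refine Relation.ReflTransGen.head ?_ (ih hv)
        rcases hs with hs | hs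
        · by_cases hz : qp u ∈ ZZ h
          · right; right
            exact ⟨(hUS u).mpr hz, hs⟩
          · right; left
            rw [hs, bb_zero j0 ch hz hu]
        · left
          rw [hs, LL_zero L0 ch hu])
    (fun z => ⟨mk (fun _ => false) (fun _ => false) z.1, rfl, rfl⟩)
  obtain ⟨M, hM1, _, hM3, hM4, hM5⟩ := key
  refine ⟨M, hM1, fun x hx => hM3 x (fun hU => hx ((hUS x).mp hU)), ?_, ?_, hM5⟩
  · intro x
    by_cases hz : qp x ∈ ZZ h
    · exact (hM4 ⟨qp x, hz⟩ x rfl).1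
    · rw [hM3 x (fun hU => hz ((hUS x).mp hU)), bb_qp]
  · intro x
    by_cases hz : qp x ∈ ZZ h
    · obtain ⟨i, _, hi⟩ := (hM4 ⟨qp x, hz⟩ x rfl).2
      exact ⟨i, hi⟩
    · rw [hM3 x (fun hU => hz ((hUS x).mp hU))]
      exact bb_flip j0 ch hz

end

end Pool.Agent.Helper886.HCube
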