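import Mathlib

set_option autoImplicit false

namespace Pool.Agent.Helper886.HCube

theorem numeric_cb (m : ℕ) : (Nat.centralBinom m) ^ 2 * (2 * m + 1) ≤ 16 ^ m := by
  induction m with
  | zero => simp
  | succ m ih =>
    have h := Nat.succ_mul_centralBinom_succ m
    have h2 : (m + 1) ^ 2 * ((Nat.centralBinom (m + 1)) ^ 2 * (2 * (m + 1) + 1)) ≤
        (m + 1) ^ 2 * 16 ^ (m + 1) := by
      calc (m + 1) ^ 2 * ((Nat.centralBinom (m + 1)) ^ 2 * (2 * (m + 1) + 1))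
          = ((m + 1) * Nat.centralBinom (m + 1)) ^ 2 * (2 * m + 3) := by ring
        _ = (2 * (2 * m + 1) * Nat.centralBinom m) ^ 2 * (2 * m + 3) := by rw [h]
        _ = (Nat.centralBinom m ^ 2 * (2 * m + 1)) * (4 * (2 * m + 1) * (2 * m + 3)) := by ring
        _ ≤ 16 ^ m * (4 * (2 * m + 1) * (2 * m + 3)) := Nat.mul_le_mul_right _ ih
        _ ≤ 16 ^ m * ((m + 1) ^ 2 * 16) := by
            apply Nat.mul_le_mul_left
            nlinarith
        _ = (m + 1) ^ 2 * 16 ^ (m + 1) := by ring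
    exact Nat.le_of_mul_le_mul_left h2 (by positivity)

theorem numeric_choose (h : ℕ) : 2 * (2 * h + 1).choose (h + 1) = Nat.centralBinom (h + 1) := by
  have e1 : Nat.centralBinom (h + 1) = (2 * h + 1).choose h + (2 * h + 1).choose (h + 1) := by
    rw [Nat.centralBinom_eq_two_mul_choose, show 2 * (h + 1) = (2 * h + 1) + 1 by ring,
      Nat.choose_succ_succ' (2 * h + 1) h]
  have e2 : (2 * h + 1).choose h = (2 * h + 1).choose (h + 1) :=
    Nat.choose_symm_of_eq_add (by ring)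
  rw [e1, e2]; ring

/-- TARGET. Final estimate. -/
theorem numeric : ∃ k : ℝ, 0 < k ∧ k ≤ 1 / 2 ∧ ∃ n₀ : ℕ, ∀ n : ℕ, n₀ ≤ n →
    ∃ c d h : ℕ, n = c + d + ((2 * h + 1) + (2 * h + 1)) ∧ 1 ≤ c ∧ 1 ≤ d ∧
      (k * n) ^ (2 ^ n) <
        ((((h : ℝ) + 1) / Real.exp 1) ^ (2 ^ (4 * h + 1))) ^ ((2 ^ c - 1) * 2 ^ d) *
        (((d : ℝ) / Real.exp 1) ^ (2 ^ (d - 1))) ^
          ((2 ^ c - 1) * (2 ^ (4 * h + 2) - (2 * h + 1).choose (h + 1) * 2 ^ (2 * h))) := by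
  refine ⟨1 / 200, by norm_num, by norm_num, ?_⟩
  have hlog : ∀ᶠ n : ℕ in Filter.atTop, Real.log n ≤ √(n : ℝ) / 3 := by
    have h1 := (isLittleO_log_rpow_atTop (by norm_num : (0 : ℝ) < 1 / 2)).def
      (by norm_num : (0 : ℝ) < 1 / 3)
    have h2 := tendsto_natCast_atTop_atTop (R := ℝ) |>.eventually h1
    filter_upwards [h2] with n hn
    rw [Real.norm_eq_abs, Real.norm_eq_abs, ← Real.sqrt_eq_rpow,
      abs_of_nonneg (Real.sqrt_nonneg _)] at hn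
    have := le_abs_self (Real.log n)
    linarith
  obtain ⟨n1, hn1⟩ := Filter.eventually_atTop.1 hlog
  refine ⟨max n1 200, fun n hn => ?_⟩
  have hn200 : 200 ≤ n := le_trans (le_max_right _ _) hn
  have hlogn := hn1 n (le_trans (le_max_left _ _) hn)
  obtain ⟨h, hh⟩ : ∃ h, h = n / 12 := ⟨_, rfl⟩
  have hh1 : 12 * h ≤ n := by omega
  have hh2 : n < 12 * (h + 1) := by omega
  refine ⟨h + 1, n - 5 * h - 3, h, by omega, by omega, by omega, ?_⟩
  obtain ⟨d, hd⟩ : ∃ d, d = n - 5 * h - 3 := ⟨_, rfl⟩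
  rw [← hd]
  have hd1 : n ≤ 2 * d := by omega
  have hd2 : n = (h + 1) + d + (4 * h + 2) := by omega
  have hdpos : 1 ≤ d := by omega
  have hnR : (200 : ℝ) ≤ n := by exact_mod_cast hn200
  have he := Real.exp_one_lt_d9
  have hepos := Real.exp_pos (1 : ℝ)
  -- bases
  set b : ℝ := (n : ℝ) / 40 with hb
  have hb1 : 1 ≤ b := by rw [hb]; linarith
  have hb0 : 0 < b := by linarith
  have hbase1 : b ≤ ((h : ℝ) + 1) / Real.exp 1 := by
    rw [le_div_iff₀ hepos, hb]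
    have : (n : ℝ) < 12 * ((h : ℝ) + 1) := by exact_mod_cast hh2
    nlinarith
  have hbase2 : b ≤ (d : ℝ) / Real.exp 1 := by
    rw [le_div_iff₀ hepos, hb]
    have : (n : ℝ) ≤ 2 * (d : ℝ) := by exact_mod_cast hd1
    nlinarith
  have hp1 : 0 < ((h : ℝ) + 1) / Real.exp 1 := lt_of_lt_of_le hb0 hbase1
  have hp2 : 0 < (d : ℝ) / Real.exp 1 := lt_of_lt_of_le hb0 hbase2
  rw [← pow_mul, ← pow_mul]
  set E1 : ℕ := 2 ^ (4 * h + 1) * ((2 ^ (h + 1) - 1) * 2 ^ d) with hE1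
  set E2 : ℕ := 2 ^ (d - 1) * ((2 ^ (h + 1) - 1) *
    (2 ^ (4 * h + 2) - (2 * h + 1).choose (h + 1) * 2 ^ (2 * h))) with hE2
  have hlow : b ^ (E1 + E2) ≤ (((h : ℝ) + 1) / Real.exp 1) ^ E1 * ((d : ℝ) / Real.exp 1) ^ E2 := by
    rw [pow_add]
    exact mul_le_mul (pow_le_pow_left₀ hb0.le hbase1 _) (pow_le_pow_left₀ hb0.le hbase2 _)
      (by positivity) (by positivity)
  refine lt_of_lt_of_le ?_ hlow
  -- casts of exponents
  have hCle : (2 * h + 1).choose (h + 1) * 2 ^ (2 * h) ≤ 2 ^ (4 * h + 2) := by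
    have h1 : (2 * h + 1).choose (h + 1) ≤ 2 ^ (2 * h + 1) := Nat.choose_le_two_pow _ _
    calc (2 * h + 1).choose (h + 1) * 2 ^ (2 * h) ≤ 2 ^ (2 * h + 1) * 2 ^ (2 * h) :=
          Nat.mul_le_mul_right _ h1
      _ = 2 ^ (4 * h + 1) := by rw [← pow_add]; congr 1; ring
      _ ≤ 2 ^ (4 * h + 2) := Nat.pow_le_pow_right (by norm_num) (by omega)
  have hE1R : (E1 : ℝ) = 2 ^ (4 * h + 1) * ((2 ^ (h + 1) - 1) * 2 ^ d) := by
    rw [hE1]; push_cast [Nat.one_le_two_pow]; ring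
  have hE2R : (E2 : ℝ) = 2 ^ (d - 1) * ((2 ^ (h + 1) - 1) *
      (2 ^ (4 * h + 2) - ((2 * h + 1).choose (h + 1) : ℝ) * 2 ^ (2 * h))) := by
    rw [hE2, Nat.cast_mul, Nat.cast_mul, Nat.cast_sub hCle, Nat.cast_sub Nat.one_le_two_pow]
    push_cast; rfl
  have h2d : (2 : ℝ) ^ d = 2 * 2 ^ (d - 1) := by
    rw [← pow_succ']; congr 1; omega
  set C : ℝ := ((2 * h + 1).choose (h + 1) : ℝ) with hC
  have hN : (2 : ℝ) ^ n = 2 ^ (h + 1) * (2 * 2 ^ (d - 1)) * (2 * 2 ^ (4 * h + 1)) := by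
    rw [← h2d, ← pow_succ', hd2, pow_add, pow_add]
  -- bound for C
  have hCsq : C ^ 2 * (8 * (h : ℝ) + 12) ≤ 16 ^ (h + 1) := by
    have h1 := numeric_cb (h + 1)
    rw [← numeric_choose h] at h1
    have h2 : ((2 * (2 * h + 1).choose (h + 1)) ^ 2 * (2 * (h + 1) + 1) : ℝ) ≤ 16 ^ (h + 1) := by
      exact_mod_cast h1
    calc C ^ 2 * (8 * (h : ℝ) + 12) = ((2 * (2 * h + 1).choose (h + 1)) ^ 2 * (2 * (h + 1) + 1) : ℝ) := by
          rw [hC]; push_cast; ring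
      _ ≤ _ := h2
  have hC0 : 0 ≤ C := by rw [hC]; positivity
  have hsn : 0 < √(n : ℝ) := Real.sqrt_pos.2 (by linarith)
  have hsn2 : √(n : ℝ) ^ 2 = n := Real.sq_sqrt (by linarith)
  have hCb : C * √(n : ℝ) ≤ 4 * 2 ^ (2 * h + 1) := by
    have h1 : (C * √(n : ℝ)) ^ 2 ≤ (4 * 2 ^ (2 * h + 1)) ^ 2 := by
      have h3 : (n : ℝ) ≤ 4 * (8 * (h : ℝ) + 12) := by
        have : (n : ℝ) < 12 * ((h : ℝ) + 1) := by exact_mod_cast hh2
        nlinarith
      calc (C * √(n : ℝ)) ^ 2 = C ^ 2 * n := by rw [mul_pow, hsn2]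
        _ ≤ C ^ 2 * (4 * (8 * (h : ℝ) + 12)) := mul_le_mul_of_nonneg_left h3 (by positivity)
        _ = 4 * (C ^ 2 * (8 * (h : ℝ) + 12)) := by ring
        _ ≤ 4 * 16 ^ (h + 1) := by linarith
        _ = (4 * 2 ^ (2 * h + 1)) ^ 2 := by
            rw [mul_pow, ← pow_mul, show (16 : ℝ) = 2 ^ 4 by norm_num, ← pow_mul,
              show (2 * h + 1) * 2 = 4 * h + 2 by ring, show 4 * (h + 1) = (4 * h + 2) + 2 by ring,
              pow_add]
            norm_num; ring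
    exact le_of_sq_le_sq h1 (by positivity)
  set X : ℝ := 2 ^ (d - 1) with hX
  set Y : ℝ := 2 ^ (4 * h + 1) with hY
  set W : ℝ := 2 ^ (h + 1) with hW
  have hXpos : 0 < X := by positivity
  have hYpos : 0 < Y := by positivity
  have hWpos : 0 < W := by positivity
  have hYZ : Y = 2 ^ (2 * h) * 2 ^ (2 * h + 1) := by rw [hY, ← pow_add]; congr 1; ring
  have hY2 : (2 : ℝ) ^ (4 * h + 2) = 2 * Y := by rw [hY, ← pow_succ']
  set Z : ℝ := 2 ^ (2 * h) with hZ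
  have hZpos : 0 < Z := by positivity
  have hWn : √(n : ℝ) ≤ W := by
    have h1 : ((h + 1 : ℕ) : ℝ) ≤ W := by
      have := (Nat.lt_two_pow_self (n := h + 1)).le
      rw [hW]; exact_mod_cast this
    have h2 : √(n : ℝ) ≤ ((h + 1 : ℕ) : ℝ) := by
      rw [Real.sqrt_le_left (by positivity)]
      have h3 : (n : ℝ) < 12 * ((h : ℝ) + 1) := by exact_mod_cast hh2
      have h4 : (12 : ℝ) ≤ (h : ℝ) + 1 := by
        by_contra hcon
        push Not at hcon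
        nlinarith
      push_cast
      nlinarith
    exact h2.trans h1
  have hDb : ((2 : ℝ) ^ n - (E1 + E2)) * √(n : ℝ) ≤ 2 * 2 ^ n := by
    have e1 : (2 : ℝ) ^ n - (E1 + E2) = 4 * X * Y + X * (W - 1) * (C * Z) := by
      rw [hE1R, hE2R, hN, h2d, hY2]; ring
    have e2 : (2 : ℝ) ^ n = 4 * (W * X * Y) := by rw [hN]; ring
    rw [e1, e2]
    have t1 : 4 * X * Y * √(n : ℝ) ≤ 4 * X * Y * W := mul_le_mul_of_nonneg_left hWn (by positivity)
    have t2 : X * (W - 1) * (C * Z) * √(n : ℝ) ≤ 4 * (X * W * Y) := by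
      have a1 : X * (W - 1) * (C * Z) * √(n : ℝ) ≤ X * W * (C * Z) * √(n : ℝ) := by
        have : X * (W - 1) ≤ X * W := by nlinarith
        gcongr
      have a2 : X * W * (C * Z) * √(n : ℝ) = X * W * Z * (C * √(n : ℝ)) := by ring
      have a3 : X * W * Z * (C * √(n : ℝ)) ≤ X * W * Z * (4 * 2 ^ (2 * h + 1)) :=
        mul_le_mul_of_nonneg_left hCb (by positivity)
      calc _ ≤ _ := a1
        _ = _ := a2
        _ ≤ _ := a3
        _ = 4 * (X * W * Y) := by rw [hYZ]; ring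
    nlinarith
  have hlogb : Real.log b ≤ √(n : ℝ) / 3 := by
    refine le_trans (Real.log_le_log hb0 ?_) hlogn
    rw [hb]; linarith
  have hlogb0 : 0 ≤ Real.log b := Real.log_nonneg hb1
  have hNpos : (0 : ℝ) < 2 ^ n := by positivity
  have hD : ((2 : ℝ) ^ n - (E1 + E2)) * Real.log b ≤ 2 / 3 * 2 ^ n := by
    have hD0 : 0 ≤ (2 : ℝ) ^ n - (E1 + E2) := by
      have e1 : (2 : ℝ) ^ n - (E1 + E2) = 4 * X * Y + X * (W - 1) * (C * Z) := by
        rw [hE1R, hE2R, hN, h2d, hY2]; ring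
      rw [e1]
      have : 0 ≤ W - 1 := by
        have : (1 : ℝ) ≤ W := one_le_pow₀ (by norm_num)
        linarith
      positivity
    calc ((2 : ℝ) ^ n - (E1 + E2)) * Real.log b ≤ ((2 : ℝ) ^ n - (E1 + E2)) * (√(n : ℝ) / 3) :=
          mul_le_mul_of_nonneg_left hlogb hD0
      _ = (((2 : ℝ) ^ n - (E1 + E2)) * √(n : ℝ)) / 3 := by ring
      _ ≤ 2 / 3 * 2 ^ n := by linarith
  have hlog5 : 1 < Real.log 5 := by
    rw [Real.lt_log_iff_exp_lt (by norm_num)]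
    linarith
  have hkn : (1 / 200 : ℝ) * n = b / 5 := by rw [hb]; ring
  rw [hkn, ← Real.log_lt_log_iff (by positivity) (by positivity), Real.log_pow, Real.log_pow,
    Real.log_div hb0.ne' (by norm_num)]
  push_cast
  nlinarith

end Pool.Agent.Helper886.HCube
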