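import Mathlib

set_option autoImplicit false
open scoped BigOperators

namespace Pool.Agent.Helper886.HCube

open Polynomial in
lemma norm_multiset_prod (s : Multiset ℂ) : ‖s.prod‖ = (s.map fun z => ‖z‖).prod := by
  induction s using Multiset.induction with
  | empty => simp
  | cons a s ih => simp [ih]

/-- real-rooted polynomials: `‖h 0‖ ≤ ‖h I‖` -/
lemma lemB (h : Polynomial ℂ) (hroot : ∀ u, h.eval u = 0 → u.im = 0) :
    ‖h.eval 0‖ ≤ ‖h.eval Complex.I‖ := by
  by_cases h0 : h = 0
  · simp [h0]
  have hs := IsAlgClosed.splits h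
  rw [hs.eval_eq_prod_roots, hs.eval_eq_prod_roots, norm_mul, norm_mul]
  apply mul_le_mul_of_nonneg_left _ (norm_nonneg _)
  rw [norm_multiset_prod, norm_multiset_prod, Multiset.map_map, Multiset.map_map]
  apply Multiset.prod_map_le_prod_map₀
  · intro z _; exact norm_nonneg _
  · intro z hz
    have hz' : h.eval z = 0 := (Polynomial.mem_roots h0).mp hz
    have him := hroot z hz'
    simp only [Function.comp_apply, zero_sub, norm_neg]
    have h1 : ‖z‖ = |(Complex.I - z).re| := by
      have : z = (z.re : ℂ) := by apply Complex.ext <;> simp [him]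
      rw [this, Complex.norm_real]; simp
    rw [h1]
    exact Complex.abs_re_le_norm _

/-- growth lemma -/
lemma lemC (h : Polynomial ℂ) (hroot : ∀ u, h.eval u = 0 → ‖u‖ + u.re ≤ 0) (c : ℝ) (hc : 0 < c)
    (hg : ∀ t : ℝ, 0 < t → c * t ≤ ‖h.eval (t : ℂ)‖) : c * Real.exp (-1) ≤ ‖h.coeff 1‖ := by
  have hh0 : h ≠ 0 := by
    rintro rfl
    have := hg 1 one_pos
    simp at this
    linarith
  by_cases h0 : h.eval 0 = 0
  · -- h = X * g
    have hco : h.coeff 0 = 0 := by rw [← Polynomial.coeff_zero_eq_eval_zero] at h0; exact h0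
    have hX : h = Polynomial.X * h.divX := by
      have := Polynomial.divX_mul_X_add h
      rw [hco, map_zero, add_zero, mul_comm] at this
      exact this.symm
    have h1 : h.coeff 1 = h.divX.eval 0 := by
      rw [← Polynomial.coeff_zero_eq_eval_zero, Polynomial.coeff_divX]
    have h2 : ∀ t : ℝ, 0 < t → c ≤ ‖h.divX.eval (t : ℂ)‖ := by
      intro t ht
      have h3 := hg t ht
      rw [hX, Polynomial.eval_mul, Polynomial.eval_X, norm_mul, Complex.norm_real,
        Real.norm_of_nonneg ht.le] at h3
      have h4 : t * c ≤ t * ‖h.divX.eval (t : ℂ)‖ := by linarith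
      exact le_of_mul_le_mul_left h4 ht
    have h3 : c ≤ ‖h.divX.eval ((0 : ℝ) : ℂ)‖ := by
      have hcont : Continuous (fun t : ℝ => ‖h.divX.eval (t : ℂ)‖) := by
        exact (h.divX.continuous.comp Complex.continuous_ofReal).norm
      have ht : Filter.Tendsto (fun t : ℝ => ‖h.divX.eval (t : ℂ)‖) (nhdsWithin 0 (Set.Ioi 0))
          (nhds ‖h.divX.eval ((0 : ℝ) : ℂ)‖) := (hcont.tendsto 0).mono_left nhdsWithin_le_nhds
      refine ge_of_tendsto ht ?_
      filter_upwards [self_mem_nhdsWithin] with t ht
      exact h2 t ht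
    rw [h1]
    have h4 : Real.exp (-1) ≤ 1 := Real.exp_le_one_iff.mpr (by norm_num)
    calc c * Real.exp (-1) ≤ c * 1 := mul_le_mul_of_nonneg_left h4 hc.le
      _ = c := mul_one c
      _ ≤ _ := by simpa using h3
  · have hs := IsAlgClosed.splits h
    have hneg : ∀ z ∈ h.roots, z = -((‖z‖ : ℝ) : ℂ) ∧ 0 < ‖z‖ := by
      intro z hz
      have hz' : h.eval z = 0 := (Polynomial.mem_roots hh0).mp hz
      have h1 := hroot z hz'
      have h2 : z ≠ 0 := by rintro rfl; exact h0 hz'
      have h3 : 0 < ‖z‖ := norm_pos_iff.mpr h2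
      refine ⟨?_, h3⟩
      have h4 : z.re = -‖z‖ := by
        have := Complex.abs_re_le_norm z
        have := neg_abs_le z.re
        linarith
      have h5 : z.im = 0 := by
        have h6 : ‖z‖ ^ 2 = z.re ^ 2 + z.im ^ 2 := by
          rw [← Complex.normSq_eq_norm_sq, Complex.normSq_apply]; ring
        rw [h4] at h6
        have : z.im ^ 2 = 0 := by linarith [h6]
        exact pow_eq_zero_iff (two_ne_zero) |>.mp this
      apply Complex.ext
      · rw [h4]; simp
      · rw [h5]; simp
    set S : ℝ := (h.roots.map fun z => 1 / ‖z‖).sum with hS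
    have hd : h.coeff 1 = h.eval 0 * (S : ℂ) := by
      have h1 : h.coeff 1 = h.derivative.eval 0 := by
        rw [← Polynomial.coeff_zero_eq_eval_zero, Polynomial.coeff_derivative]; simp
      rw [h1, hs.eval_derivative_eq_eval_mul_sum h0, hS]
      congr 1
      rw [← Complex.ofRealHom_eq_coe, map_multiset_sum, Multiset.map_map]
      congr 1
      apply Multiset.map_congr rfl
      intro z hz
      simp only [Function.comp_apply, Complex.ofRealHom_eq_coe]
      push_cast
      congr 1
      rw [zero_sub]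
      have := (hneg z hz).1
      nth_rewrite 1 [this]
      simp
    have hS0 : 0 ≤ S := by
      apply Multiset.sum_nonneg
      intro x hx
      obtain ⟨z, _, rfl⟩ := Multiset.mem_map.mp hx
      positivity
    have hup : ∀ t : ℝ, 0 ≤ t → ‖h.eval (t : ℂ)‖ ≤ ‖h.eval 0‖ * Real.exp (t * S) := by
      intro t ht
      rw [hs.eval_eq_prod_roots, hs.eval_eq_prod_roots, norm_mul, norm_mul, mul_assoc]
      apply mul_le_mul_of_nonneg_left _ (norm_nonneg _)
      rw [norm_multiset_prod, norm_multiset_prod, Multiset.map_map, Multiset.map_map]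
      have hexp : Real.exp (t * S) = (h.roots.map fun z => Real.exp (t * (1 / ‖z‖))).prod := by
        rw [hS, ← Multiset.sum_map_mul_left, Real.exp_multiset_sum, Multiset.map_map]
        rfl
      rw [hexp, ← Multiset.prod_map_mul]
      apply Multiset.prod_map_le_prod_map₀
      · intro z _; exact norm_nonneg _
      · intro z hz
        simp only [Function.comp_apply, zero_sub, norm_neg]
        obtain ⟨h1, h2⟩ := hneg z hz
        have h3 : ‖(t : ℂ) - z‖ = t + ‖z‖ := by
          nth_rewrite 1 [h1]
          rw [sub_neg_eq_add, ← Complex.ofReal_add, Complex.norm_real]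
          exact Real.norm_of_nonneg (by linarith)
        rw [h3]
        have h4 := Real.add_one_le_exp (t * (1 / ‖z‖))
        calc t + ‖z‖ = ‖z‖ * (t * (1 / ‖z‖) + 1) := by field_simp
          _ ≤ ‖z‖ * Real.exp (t * (1 / ‖z‖)) := mul_le_mul_of_nonneg_left h4 h2.le
    have hSpos : 0 < S := by
      rcases hS0.lt_or_eq with h1 | h1
      · exact h1
      · exfalso
        rw [← h1] at hup
        have hN : 0 < ‖h.eval 0‖ := norm_pos_iff.mpr h0
        have h2 := hup (2 * ‖h.eval 0‖ / c) (by positivity)
        have h3 := hg (2 * ‖h.eval 0‖ / c) (by positivity)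
        rw [mul_zero, Real.exp_zero, mul_one] at h2
        have h4 : c * (2 * ‖h.eval 0‖ / c) = 2 * ‖h.eval 0‖ := by field_simp
        rw [h4] at h3
        linarith
    have h1 := hup (1 / S) (by positivity)
    have h2 := hg (1 / S) (by positivity)
    have h3 : 1 / S * S = 1 := by field_simp
    rw [h3] at h1
    have h4 : c * (1 / S) ≤ ‖h.eval 0‖ * Real.exp 1 := h2.trans h1
    rw [hd, norm_mul, Complex.norm_real, Real.norm_of_nonneg hS0]
    have h5 : c ≤ ‖h.eval 0‖ * S * Real.exp 1 := by
      have := mul_le_mul_of_nonneg_right h4 hS0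
      calc c = c * (1 / S) * S := by field_simp
        _ ≤ _ := this
        _ = _ := by ring
    calc c * Real.exp (-1) ≤ (‖h.eval 0‖ * S * Real.exp 1) * Real.exp (-1) :=
          mul_le_mul_of_nonneg_right h5 (Real.exp_pos _).le
      _ = ‖h.eval 0‖ * S * (Real.exp 1 * Real.exp (-1)) := by ring
      _ = _ := by rw [← Real.exp_add]; simp

/-- half plane Gauss-Lucas -/
lemma lemD (h : Polynomial ℂ) (hh : ∀ u : ℂ, 0 < u.re → h.eval u ≠ 0) (hr : h.roots ≠ 0) (u : ℂ)
    (hu : 0 < u.re) : h.derivative.eval u ≠ 0 := by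
  have hh0 : h ≠ 0 := by rintro rfl; simp at hr
  have hs := IsAlgClosed.splits h
  rw [hs.eval_derivative_eq_eval_mul_sum (hh u hu)]
  apply mul_ne_zero (hh u hu)
  intro hsum
  have hre : 0 < ((h.roots.map fun z ↦ 1 / (u - z)).sum).re := by
    have h1 : ((h.roots.map fun z ↦ 1 / (u - z)).sum).re =
        (h.roots.map fun z ↦ (1 / (u - z)).re).sum := by
      have h2 := map_multiset_sum Complex.reAddGroupHom (h.roots.map fun z ↦ 1 / (u - z))
      rw [Multiset.map_map] at h2
      exact h2
    rw [h1]
    have hpos : ∀ z ∈ h.roots, 0 < (1 / (u - z)).re := by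
      intro z hz
      have hz' : h.eval z = 0 := (Polynomial.mem_roots hh0).mp hz
      have hz2 : z.re ≤ 0 := by
        by_contra hc
        push Not at hc
        exact hh z hc hz'
      rw [one_div, Complex.inv_re]
      apply div_pos
      · simp; linarith
      · rw [Complex.normSq_pos]
        intro e
        rw [sub_eq_zero] at e
        rw [e] at hu
        linarith
    obtain ⟨z, hz⟩ := Multiset.exists_mem_of_ne_zero hr
    obtain ⟨t, ht⟩ := Multiset.exists_cons_of_mem hz
    rw [ht, Multiset.map_cons, Multiset.sum_cons]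
    have h2 : 0 < (1 / (u - z)).re := hpos z hz
    have h3 : 0 ≤ (t.map fun z ↦ (1 / (u - z)).re).sum := by
      apply Multiset.sum_nonneg
      intro x hx
      obtain ⟨w, hw, rfl⟩ := Multiset.mem_map.mp hx
      exact (hpos w (by rw [ht]; exact Multiset.mem_cons_of_mem hw)).le
    linarith
  rw [hsum] at hre
  simp at hre

open MvPolynomial

lemma hom_eval {σ : Type} [Fintype σ] {f : MvPolynomial σ ℂ} {n : ℕ} (hf : f.IsHomogeneous n)
    (c : ℂ) (z : σ → ℂ) : eval (fun i => c * z i) f = c ^ n * eval z f := by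
  rw [eval_eq', eval_eq', Finset.mul_sum]
  apply Finset.sum_congr rfl
  intro d hd
  have h1 : ∑ i, d i = n := by
    have := hf (mem_support_iff.mp hd)
    rw [Finsupp.weight_apply] at this
    simp only [Pi.one_apply, smul_eq_mul, mul_one] at this
    rw [← this, Finsupp.sum_fintype]
    intro i; rfl
  simp only [mul_pow, Finset.prod_mul_distrib, Finset.prod_pow_eq_pow_sum, h1]
  ring

def Stab {σ : Type} (f : MvPolynomial σ ℂ) : Prop := ∀ z : σ → ℂ, (∀ i, 0 < (z i).re) → eval z f ≠ 0

/-- Lemma A -/
lemma lemA {σ : Type} [Fintype σ] {f : MvPolynomial σ ℂ} {n : ℕ} (hf : f.IsHomogeneous n)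
    (hs : Stab f) (z : σ → ℂ) (hz : ∀ i, 0 < (z i).re) :
    ‖eval (fun i => ((z i).re : ℂ)) f‖ ≤ ‖eval z f‖ := by
  set h : Polynomial ℂ := MvPolynomial.aeval
    (fun i => Polynomial.C ((z i).re : ℂ) + Polynomial.C ((z i).im : ℂ) * Polynomial.X) f with hh
  have hev : ∀ u : ℂ, h.eval u = eval (fun i => ((z i).re : ℂ) + ((z i).im : ℂ) * u) f := by
    intro u
    rw [hh, MvPolynomial.aeval_def, ← Polynomial.coe_evalRingHom, MvPolynomial.hom_eval₂]
    rw [MvPolynomial.eval, MvPolynomial.coe_eval₂Hom]
    congr 1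
    · ext x; simp
    · funext i; simp
  have h0 : h.eval 0 = eval (fun i => ((z i).re : ℂ)) f := by
    rw [hev]; simp
  have hI : h.eval Complex.I = eval z f := by
    rw [hev]
    congr 1
    congr 1
    funext i
    exact Complex.re_add_im (z i)
  rw [← h0, ← hI]
  apply lemB
  intro u hu
  by_contra him
  have hu0 : u ≠ 0 := by rintro rfl; simp at him
  rw [hev] at hu
  have key : ∀ c : ℂ, (∀ i, 0 < (c * (((z i).re : ℂ) + ((z i).im : ℂ) * u)).re) → False := by
    intro c hc
    have h1 := hom_eval hf c (fun i => ((z i).re : ℂ) + ((z i).im : ℂ) * u)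
    rw [hu, mul_zero] at h1
    exact hs _ hc h1
  have hn : 0 < Complex.normSq u := Complex.normSq_pos.mpr hu0
  rcases lt_or_gt_of_ne him with hlt | hgt
  · apply key (-Complex.I / u)
    intro i
    have h1 : -Complex.I / u * (((z i).re : ℂ) + ((z i).im : ℂ) * u) =
        ((z i).re : ℂ) * (-Complex.I / u) + -Complex.I * ((z i).im : ℂ) := by
      field_simp
      ring
    rw [h1, Complex.add_re, Complex.re_ofReal_mul]
    have h2 : (-Complex.I / u).re = -u.im / Complex.normSq u := by
      rw [Complex.div_re]; simp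
    rw [h2]
    have h3 : (-Complex.I * ((z i).im : ℂ)).re = 0 := by simp
    rw [h3, add_zero]
    apply mul_pos (hz i)
    apply div_pos (by linarith) hn
  · apply key (Complex.I / u)
    intro i
    have h1 : Complex.I / u * (((z i).re : ℂ) + ((z i).im : ℂ) * u) =
        ((z i).re : ℂ) * (Complex.I / u) + Complex.I * ((z i).im : ℂ) := by
      field_simp
    rw [h1, Complex.add_re, Complex.re_ofReal_mul]
    have h2 : (Complex.I / u).re = u.im / Complex.normSq u := by
      rw [Complex.div_re]; simp
    rw [h2]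
    have h3 : (Complex.I * ((z i).im : ℂ)).re = 0 := by simp
    rw [h3, add_zero]
    apply mul_pos (hz i)
    apply div_pos (by linarith) hn


/-- the univariate polynomial in the first variable -/
noncomputable def up {k : ℕ} (f : MvPolynomial (Fin (k + 1)) ℂ) (y : Fin k → ℂ) : Polynomial ℂ :=
  Polynomial.map (eval y) (finSuccEquiv ℂ k f)

lemma up_eval {k : ℕ} (f : MvPolynomial (Fin (k + 1)) ℂ) (y : Fin k → ℂ) (t : ℂ) :
    (up f y).eval t = eval (Fin.cons t y : Fin (k + 1) → ℂ) f := (eval_eq_eval_mv_eval' y t f).symm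

/-- polynomial of the derivative in the first variable -/
noncomputable def dd {k : ℕ} (f : MvPolynomial (Fin (k + 1)) ℂ) : MvPolynomial (Fin (k + 1)) ℂ :=
  (finSuccEquiv ℂ k).symm (Polynomial.derivative (finSuccEquiv ℂ k f))

lemma up_dd {k : ℕ} (f : MvPolynomial (Fin (k + 1)) ℂ) (y : Fin k → ℂ) :
    up (dd f) y = Polynomial.derivative (up f y) := by
  unfold up dd
  rw [AlgEquiv.apply_symm_apply, Polynomial.derivative_map]

lemma dd_hom {k n : ℕ} {f : MvPolynomial (Fin (k + 1)) ℂ} (hf : f.IsHomogeneous (n + 1)) :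
    (dd f).IsHomogeneous n := by
  intro d hd
  have hd' : d = (Finsupp.cons (d 0) d.tail) := (Finsupp.cons_tail d).symm
  have h1 : coeff d (dd f) = coeff d.tail
      ((Polynomial.derivative (finSuccEquiv ℂ k f)).coeff (d 0)) := by
    nth_rewrite 1 [hd']
    rw [← finSuccEquiv_coeff_coeff, dd, AlgEquiv.apply_symm_apply]
  rw [h1, Polynomial.coeff_derivative] at hd
  have h2 : coeff (Finsupp.cons (d 0 + 1) d.tail) f ≠ 0 := by
    rw [← finSuccEquiv_coeff_coeff]
    intro h
    apply hd
    have h3 : ((d 0 : MvPolynomial (Fin k) ℂ) + 1) = C ((d 0 : ℂ) + 1) := by simp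
    rw [h3, mul_comm, coeff_C_mul, h, mul_zero]
  have h4 := hf h2
  rw [Finsupp.weight_apply] at h4 ⊢
  simp only [Pi.one_apply, smul_eq_mul, mul_one] at h4 ⊢
  rw [Finsupp.sum_cons] at h4
  have h5 : (Finsupp.cons (d 0) d.tail).sum (fun _ x => x) = d 0 + d.tail.sum (fun _ x => x) :=
    Finsupp.sum_cons _ _ _
  rw [← hd'] at h5
  omega

/-- the main induction -/
theorem main (k : ℕ) : ∀ (f : MvPolynomial (Fin k) ℂ), f.IsHomogeneous k → Stab f →
    ∀ c : ℝ, 0 < c → (∀ x : Fin k → ℝ, (∀ i, 0 < x i) →
      c * ∏ i, x i ≤ ‖eval (fun i => (x i : ℂ)) f‖) →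
    c * Real.exp (-(k : ℝ)) ≤ ‖coeff (Finsupp.equivFunOnFinite.symm (fun _ => 1)) f‖ := by
  induction k with
  | zero =>
    intro f hf hs c hc hcap
    have h1 := hcap (fun i => i.elim0) (fun i => i.elim0)
    simp only [Finset.univ_eq_empty, Finset.prod_empty, mul_one] at h1
    have h2 : f = C (coeff 0 f) := MvPolynomial.eq_C_of_isEmpty f
    have h3 : (Finsupp.equivFunOnFinite.symm (fun _ => 1) : Fin 0 →₀ ℕ) = 0 := by
      ext i; exact i.elim0
    rw [h3]
    rw [h2, eval_C] at h1
    simpa using h1
  | succ k ih =>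
    intro f hf hs c hc hcap
    set q : MvPolynomial (Fin k) ℂ := (finSuccEquiv ℂ k f).coeff 1 with hq
    have hqhom : q.IsHomogeneous k := hf.finSuccEquiv_coeff_isHomogeneous 1 k (by omega)
    have hqev : ∀ y : Fin k → ℂ, eval y q = (up f y).coeff 1 := by
      intro y
      rw [up, Polynomial.coeff_map]
    have hqev2 : ∀ y : Fin k → ℂ, eval y q = eval (Fin.cons 0 y : Fin (k + 1) → ℂ) (dd f) := by
      intro y
      rw [hqev, ← up_eval, up_dd, ← Polynomial.coeff_zero_eq_eval_zero,
        Polynomial.coeff_derivative]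
      simp
    -- positivity growth in the first variable
    have hgrow : ∀ x : Fin k → ℝ, (∀ i, 0 < x i) → ∀ t : ℝ, 0 < t →
        (c * ∏ i, x i) * t ≤ ‖(up f (fun i => (x i : ℂ))).eval (t : ℂ)‖ := by
      intro x hx t ht
      rw [up_eval]
      have h1 := hcap (Fin.cons t x : Fin (k + 1) → ℝ) (by
        intro i
        refine Fin.cases ?_ (fun j => ?_) i
        · exact ht
        · exact hx j)
      rw [Fin.prod_univ_succ] at h1
      simp only [Fin.cons_zero, Fin.cons_succ] at h1
      have h2 : (fun i => (((Fin.cons t x : Fin (k + 1) → ℝ) i : ℝ) : ℂ)) =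
          (Fin.cons (t : ℂ) (fun i => (x i : ℂ)) : Fin (k + 1) → ℂ) := by
        funext i
        refine Fin.cases ?_ (fun j => ?_) i <;> simp
      rw [h2] at h1
      calc (c * ∏ i, x i) * t = c * (t * ∏ i, x i) := by ring
        _ ≤ _ := h1
    -- cap bound
    have hcapq : ∀ x : Fin k → ℝ, (∀ i, 0 < x i) →
        c * Real.exp (-1) * ∏ i, x i ≤ ‖eval (fun i => (x i : ℂ)) q‖ := by
      intro x hx
      rw [hqev]
      have hP : 0 < ∏ i, x i := Finset.prod_pos fun i _ => hx i
      have h1 := lemC (up f (fun i => (x i : ℂ))) (by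
        intro u hu
        by_contra hcon
        push Not at hcon
        rw [up_eval] at hu
        have h2 := hom_eval hf (((‖u‖ : ℝ) : ℂ) + (starRingEnd ℂ) u)
          (Fin.cons u (fun i => (x i : ℂ)) : Fin (k + 1) → ℂ)
        rw [hu, mul_zero] at h2
        refine hs _ ?_ h2
        intro i
        refine Fin.cases ?_ (fun j => ?_) i
        · simp only [Fin.cons_zero]
          have h3 : ((((‖u‖ : ℝ) : ℂ) + (starRingEnd ℂ) u) * u).re = ‖u‖ * (‖u‖ + u.re) := by
            rw [add_mul, Complex.add_re, Complex.re_ofReal_mul, mul_comm ((starRingEnd ℂ) u),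
              Complex.mul_conj, Complex.ofReal_re, Complex.normSq_eq_norm_sq]
            ring
          rw [h3]
          have h4 : u ≠ 0 := by
            rintro rfl
            simp at hcon
          exact mul_pos (norm_pos_iff.mpr h4) hcon
        · simp only [Fin.cons_succ]
          rw [mul_comm, Complex.re_ofReal_mul]
          apply mul_pos (hx j)
          simp
          exact hcon) (c * ∏ i, x i) (by positivity) (hgrow x hx)
      calc c * Real.exp (-1) * ∏ i, x i = (c * ∏ i, x i) * Real.exp (-1) := by ring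
        _ ≤ _ := h1
    -- stability of dd f
    have hdstab : Stab (dd f) := by
      intro z hz
      have hz' : z = (Fin.cons (z 0) (Fin.tail z) : Fin (k + 1) → ℂ) := (Fin.cons_self_tail z).symm
      rw [hz', ← up_eval, up_dd]
      have hst : ∀ u : ℂ, 0 < u.re → (up f (Fin.tail z)).eval u ≠ 0 := by
        intro u hu
        rw [up_eval]
        apply hs
        intro i
        refine Fin.cases ?_ (fun j => ?_) i
        · exact hu
        · exact hz _
      apply lemD _ hst _ _ (hz 0)
      -- non constant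
      intro hroots
      have hsp := IsAlgClosed.splits (up f (Fin.tail z))
      have hconst : ∀ u, (up f (Fin.tail z)).eval u = (up f (Fin.tail z)).leadingCoeff := by
        intro u
        rw [hsp.eval_eq_prod_roots, hroots]; simp
      set L := ‖(up f (Fin.tail z)).leadingCoeff‖ with hL
      set P := c * ∏ i, (Fin.tail z i).re with hP
      have hPpos : 0 < P := by
        apply mul_pos hc
        exact Finset.prod_pos fun i _ => hz _
      have hb : ∀ t : ℝ, 0 < t → P * t ≤ L := by
        intro t ht
        have h1 := hgrow (fun i => (Fin.tail z i).re) (fun i => hz _) t ht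
        have h2 := lemA hf hs (Fin.cons (t : ℂ) (Fin.tail z) : Fin (k + 1) → ℂ) (by
          intro i
          refine Fin.cases ?_ (fun j => ?_) i
          · simpa using ht
          · exact hz _)
        have h3 : (fun i => ((((Fin.cons (t : ℂ) (Fin.tail z) : Fin (k + 1) → ℂ) i).re : ℝ) : ℂ)) =
            (Fin.cons (t : ℂ) (fun i => (((Fin.tail z i).re : ℝ) : ℂ)) : Fin (k + 1) → ℂ) := by
          funext i
          refine Fin.cases ?_ (fun j => ?_) i <;> simp
        rw [h3, ← up_eval, ← up_eval, hconst] at h2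
        exact h1.trans h2
      have h4 := hb ((L + 1) / P) (by
        have : 0 ≤ L := norm_nonneg _
        positivity)
      rw [mul_div_cancel₀ _ hPpos.ne'] at h4
      linarith
    -- stability of q
    have hqstab : Stab q := by
      intro y hy
      have hhom := dd_hom hf
      have h1 : ∀ t : ℝ, 0 < t →
          ‖eval (Fin.cons (t : ℂ) (fun i => ((y i).re : ℂ)) : Fin (k + 1) → ℂ) (dd f)‖ ≤
          ‖eval (Fin.cons (t : ℂ) y : Fin (k + 1) → ℂ) (dd f)‖ := by
        intro t ht
        have h2 := lemA hhom hdstab (Fin.cons (t : ℂ) y : Fin (k + 1) → ℂ) (by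
          intro i
          refine Fin.cases ?_ (fun j => ?_) i
          · simpa using ht
          · exact hy _)
        have h3 : (fun i => ((((Fin.cons (t : ℂ) y : Fin (k + 1) → ℂ) i).re : ℝ) : ℂ)) =
            (Fin.cons (t : ℂ) (fun i => (((y i).re : ℝ) : ℂ)) : Fin (k + 1) → ℂ) := by
          funext i
          refine Fin.cases ?_ (fun j => ?_) i <;> simp
        rw [h3] at h2
        exact h2
      have hcont : ∀ w : Fin k → ℂ, Continuous
          (fun t : ℝ => ‖eval (Fin.cons (t : ℂ) w : Fin (k + 1) → ℂ) (dd f)‖) := by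
        intro w
        simp only [← up_eval]
        exact ((up (dd f) w).continuous.comp Complex.continuous_ofReal).norm
      have h2 : ‖eval (Fin.cons ((0 : ℝ) : ℂ) (fun i => ((y i).re : ℂ)) : Fin (k + 1) → ℂ) (dd f)‖ ≤
          ‖eval (Fin.cons ((0 : ℝ) : ℂ) y : Fin (k + 1) → ℂ) (dd f)‖ := by
        have ht1 := ((hcont (fun i => ((y i).re : ℂ))).tendsto 0).mono_left
          (nhdsWithin_le_nhds (s := Set.Ioi 0))
        have ht2 := ((hcont y).tendsto 0).mono_left (nhdsWithin_le_nhds (s := Set.Ioi 0))
        refine le_of_tendsto_of_tendsto ht1 ht2 ?_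
        filter_upwards [self_mem_nhdsWithin] with t ht
        exact h1 t ht
      rw [Complex.ofReal_zero, ← hqev2, ← hqev2] at h2
      have h3 := hcapq (fun i => (y i).re) hy
      have h4 : 0 < c * Real.exp (-1) * ∏ i, (y i).re := by
        have : 0 < ∏ i, (y i).re := Finset.prod_pos fun i _ => hy i
        positivity
      intro h0
      rw [h0, norm_zero] at h2
      linarith
    have hfin := ih q hqhom hqstab (c * Real.exp (-1)) (by positivity) hcapq
    have hco : coeff (Finsupp.equivFunOnFinite.symm (fun _ => 1) : Fin k →₀ ℕ) q =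
        coeff (Finsupp.equivFunOnFinite.symm (fun _ => 1) : Fin (k + 1) →₀ ℕ) f := by
      rw [hq, finSuccEquiv_coeff_coeff]
      congr 1
      ext i
      refine Fin.cases ?_ (fun j => ?_) i <;> simp
    rw [hco] at hfin
    calc c * Real.exp (-((k + 1 : ℕ) : ℝ)) = c * Real.exp (-1) * Real.exp (-(k : ℝ)) := by
          rw [mul_assoc, ← Real.exp_add]
          congr 2
          push_cast; ring
      _ ≤ _ := hfin

/-- TARGET. Weak form of the van der Waerden bound for permanents. -/
theorem perm_lower {n : ℕ} (A : Fin n → Fin n → ℝ) (h0 : ∀ i j, 0 ≤ A i j)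
    (hr : ∀ i, ∑ j, A i j = 1) (hc : ∀ j, ∑ i, A i j = 1) :
    Real.exp (-(n : ℝ)) ≤ ∑ σ : Equiv.Perm (Fin n), ∏ i, A i (σ i) := by
  classical
  set p : MvPolynomial (Fin n) ℂ := ∏ i, ∑ j, C ((A i j : ℝ) : ℂ) * X j with hp
  have hev : ∀ z : Fin n → ℂ, eval z p = ∏ i, ∑ j, ((A i j : ℝ) : ℂ) * z j := by
    intro z
    rw [hp, map_prod]
    simp
  have hhom : p.IsHomogeneous n := by
    have h1 := IsHomogeneous.prod Finset.univ (fun i : Fin n => ∑ j, C ((A i j : ℝ) : ℂ) * X j)
      (fun _ => 1) (fun i _ => IsHomogeneous.sum _ _ _ fun j _ => isHomogeneous_C_mul_X _ _)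
    simpa using h1
  have hstab : Stab p := by
    intro z hz
    rw [hev, Finset.prod_ne_zero_iff]
    intro i _ h1
    have h2 : (∑ j, ((A i j : ℝ) : ℂ) * z j).re = ∑ j, A i j * (z j).re := by
      rw [Complex.re_sum]
      apply Finset.sum_congr rfl
      intro j _
      rw [Complex.re_ofReal_mul]
    rw [h1, Complex.zero_re] at h2
    have h3 : ∀ j ∈ Finset.univ, A i j * (z j).re = 0 :=
      (Finset.sum_eq_zero_iff_of_nonneg (fun j _ => mul_nonneg (h0 i j) (hz j).le)).mp h2.symm
    have h4 : ∑ j, A i j = 0 := by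
      apply Finset.sum_eq_zero
      intro j hj
      rcases mul_eq_zero.mp (h3 j hj) with h | h
      · exact h
      · exact absurd h (hz j).ne'
    rw [hr i] at h4
    exact one_ne_zero h4
  have hcap : ∀ x : Fin n → ℝ, (∀ i, 0 < x i) →
      1 * ∏ i, x i ≤ ‖eval (fun i => (x i : ℂ)) p‖ := by
    intro x hx
    rw [hev, one_mul]
    have h1 : ∏ i, ∑ j, ((A i j : ℝ) : ℂ) * (x j : ℂ) = ((∏ i, ∑ j, A i j * x j : ℝ) : ℂ) := by
      push_cast; rfl
    rw [h1, Complex.norm_real]
    refine le_trans ?_ (le_abs_self _)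
    calc ∏ j, x j = ∏ j, x j ^ (∑ i, A i j) := by
          apply Finset.prod_congr rfl
          intro j _
          rw [hc j, Real.rpow_one]
      _ = ∏ j, ∏ i, x j ^ (A i j) := by
          apply Finset.prod_congr rfl
          intro j _
          rw [Real.rpow_sum_of_pos (hx j)]
      _ = ∏ i, ∏ j, x j ^ (A i j) := Finset.prod_comm
      _ ≤ ∏ i, ∑ j, A i j * x j := by
          apply Finset.prod_le_prod
          · intro i _
            exact Finset.prod_nonneg fun j _ => Real.rpow_nonneg (hx j).le _
          · intro i _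
            exact Real.geom_mean_le_arith_mean_weighted _ _ _ (fun j _ => h0 i j) (hr i)
              (fun j _ => (hx j).le)
  have hmain := main n p hhom hstab 1 one_pos hcap
  have hcoeff : coeff (Finsupp.equivFunOnFinite.symm (fun _ => 1) : Fin n →₀ ℕ) p =
      ((∑ σ : Equiv.Perm (Fin n), ∏ i, A i (σ i) : ℝ) : ℂ) := by
    rw [hp, Finset.prod_univ_sum, coeff_sum]
    have h1 : ∀ g ∈ Fintype.piFinset (fun _ : Fin n => (Finset.univ : Finset (Fin n))),
        coeff (Finsupp.equivFunOnFinite.symm (fun _ => 1) : Fin n →₀ ℕ)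
          (∏ i, C ((A i (g i) : ℝ) : ℂ) * X (g i)) =
        if Function.Bijective g then ((∏ i, A i (g i) : ℝ) : ℂ) else 0 := by
      intro g _
      have h2 : (∏ i, C ((A i (g i) : ℝ) : ℂ) * X (g i) : MvPolynomial (Fin n) ℂ) =
          C ((∏ i, A i (g i) : ℝ) : ℂ) * monomial (∑ i, Finsupp.single (g i) 1) 1 := by
        rw [Finset.prod_mul_distrib]
        congr 1
        · push_cast
          rw [map_prod]
        · exact (monomial_sum_one Finset.univ (fun i => Finsupp.single (g i) 1)).symm
      rw [h2, coeff_C_mul, coeff_monomial]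
      have h3 : (∑ i, Finsupp.single (g i) 1 = (Finsupp.equivFunOnFinite.symm (fun _ => 1) :
          Fin n →₀ ℕ)) ↔ Function.Bijective g := by
        constructor
        · intro h
          rw [← Finite.surjective_iff_bijective]
          intro j
          by_contra hj
          push Not at hj
          have h4 := DFunLike.congr_fun h j
          rw [Finsupp.finsetSum_apply] at h4
          simp only [Finsupp.equivFunOnFinite_symm_apply_apply] at h4
          rw [Finset.sum_eq_zero] at h4
          · exact zero_ne_one h4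
          · intro i _
            exact Finsupp.single_eq_of_ne (fun e => hj i e.symm)
        · intro h
          ext j
          rw [Finsupp.finsetSum_apply]
          have h4 : ∑ i, (Finsupp.single (g i) 1 : Fin n →₀ ℕ) j =
              ∑ i, (Finsupp.single i 1 : Fin n →₀ ℕ) j :=
            h.sum_comp (fun i => (Finsupp.single i 1 : Fin n →₀ ℕ) j)
          rw [h4]
          simp [Finsupp.single_apply]
      by_cases hb : Function.Bijective g
      · rw [if_pos hb, if_pos (h3.mpr hb), mul_one]
      · rw [if_neg hb, if_neg (fun h => hb (h3.mp h)), mul_zero]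
    rw [Finset.sum_congr rfl h1, Fintype.piFinset_univ, ← Finset.sum_filter]
    push_cast
    symm
    apply Finset.sum_bij (fun (σ : Equiv.Perm (Fin n)) _ => (σ : Fin n → Fin n))
    · intro σ _
      exact Finset.mem_filter.mpr ⟨Finset.mem_univ _, σ.bijective⟩
    · intro σ _ τ _ h
      exact DFunLike.coe_injective h
    · intro g hg
      exact ⟨Equiv.ofBijective g (Finset.mem_filter.mp hg).2, Finset.mem_univ _, rfl⟩
    · intro σ _
      rfl
  rw [hcoeff, Complex.norm_real, one_mul, Real.norm_of_nonneg (Finset.sum_nonneg fun σ _ =>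
    Finset.prod_nonneg fun i _ => h0 _ _)] at hmain
  exact hmain

end Pool.Agent.Helper886.HCube
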