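import Mathlib

set_option autoImplicit false

namespace Pool.Agent.Helper886.HCube

open Function

variable {V : Type}

/-! ### Orbits of two involutions -/

section omega

variable (a b : V → V)

/-- steps by `a` or `b` -/
def Reach (x y : V) : Prop := Relation.ReflTransGen (fun u v => v = a u ∨ v = b u) x y

/-- the other fixed point of `b` in the orbit of `x` under `a`, `b` -/
noncomputable def omega (x : V) : V := (b ∘ a)^[minimalPeriod (b ∘ a) x / 2] x

variable {a b}
variable [Finite V] (ha : ∀ x, a (a x) = x) (hb : ∀ x, b (b x) = x)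

include ha hb

theorem comp_inj : Injective (b ∘ a) := by
  intro x y h
  have h1 : b (a x) = b (a y) := h
  have h2 : a x = a y := by rw [← hb (a x), h1, hb]
  rw [← ha x, h2, ha]

theorem per_mem (x : V) : x ∈ periodicPts (b ∘ a) := (comp_inj ha hb).mem_periodicPts x

theorem per_pos (x : V) : 0 < minimalPeriod (b ∘ a) x :=
  minimalPeriod_pos_of_mem_periodicPts (per_mem ha hb x)

theorem b_conj (k : ℕ) (y : V) : (b ∘ a)^[k] (b ((b ∘ a)^[k] y)) = b y := by
  induction k with
  | zero => rfl
  | succ k ih =>
    rw [iterate_succ_apply (b ∘ a) k (b _), iterate_succ_apply' (b ∘ a) k y]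
    have : (b ∘ a) (b ((b ∘ a) ((b ∘ a)^[k] y))) = b ((b ∘ a)^[k] y) := by
      show b (a (b (b (a ((b ∘ a)^[k] y))))) = _
      rw [hb, ha]
    rw [this, ih]

theorem b_iter {x : V} (hx : b x = x) {k : ℕ} (hk : k ≤ minimalPeriod (b ∘ a) x) :
    b ((b ∘ a)^[k] x) = (b ∘ a)^[minimalPeriod (b ∘ a) x - k] x := by
  apply (comp_inj ha hb).iterate k
  rw [b_conj ha hb, hx, ← iterate_add_apply, Nat.add_sub_cancel' hk, iterate_minimalPeriod]

theorem a_iter {x : V} (hx : b x = x) {k : ℕ} (hk : k < minimalPeriod (b ∘ a) x) :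
    a ((b ∘ a)^[k] x) = (b ∘ a)^[minimalPeriod (b ∘ a) x - k - 1] x := by
  have h1 : a ((b ∘ a)^[k] x) = b ((b ∘ a)^[k + 1] x) := by
    rw [iterate_succ_apply']
    show _ = b (b (a _))
    rw [hb]
  rw [h1, b_iter ha hb hx hk]
  congr 1

/-- the orbit of a `b`-fixed point -/
theorem reach_iff {x : V} (hx : b x = x) {y : V} (h : Reach a b x y) :
    ∃ k < minimalPeriod (b ∘ a) x, y = (b ∘ a)^[k] x := by
  have hn := per_pos ha hb x
  induction h with
  | refl => exact ⟨0, hn, rfl⟩
  | tail _ h ih =>
    obtain ⟨k, hk, rfl⟩ := ih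
    rcases h with h | h
    · exact ⟨minimalPeriod (b ∘ a) x - k - 1, by omega, by rw [h, a_iter ha hb hx hk]⟩
    · rcases Nat.eq_zero_or_pos k with h0 | h0
      · subst h0
        exact ⟨0, hn, by rw [h]; exact hx⟩
      · exact ⟨minimalPeriod (b ∘ a) x - k, by omega, by rw [h, b_iter ha hb hx hk.le]⟩

omit ha hb [Finite V] in
theorem reach_iter (x : V) (k : ℕ) : Reach a b x ((b ∘ a)^[k] x) := by
  induction k with
  | zero => exact .refl
  | succ k ih =>
    rw [iterate_succ_apply']
    exact (ih.tail (Or.inl rfl)).tail (Or.inr rfl)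

omit ha hb [Finite V] in
theorem reach_omega (x : V) : Reach a b x (omega a b x) := reach_iter _ _

omit [Finite V] in
theorem reach_symm {x y : V} (h : Reach a b x y) : Reach a b y x := by
  induction h with
  | refl => exact .refl
  | tail _ h ih =>
    refine Relation.ReflTransGen.head ?_ ih
    rcases h with h | h
    · exact Or.inl (by rw [h, ha])
    · exact Or.inr (by rw [h, hb])

theorem per_even {x : V} (hx : b x = x) (hfp : ∀ y, Reach a b x y → a y ≠ y) :
    Even (minimalPeriod (b ∘ a) x) := by
  by_contra hodd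
  rw [Nat.not_even_iff_odd] at hodd
  obtain ⟨m, hm⟩ := hodd
  refine hfp _ (reach_iter x m) ?_
  rw [a_iter ha hb hx (by omega)]
  congr 1
  omega

theorem omega_fix {x : V} (hx : b x = x) (hfp : ∀ y, Reach a b x y → a y ≠ y) :
    b (omega a b x) = omega a b x := by
  obtain ⟨m, hm⟩ := per_even ha hb hx hfp
  unfold omega
  rw [b_iter ha hb hx (by omega)]
  congr 1
  omega

theorem omega_ne {x : V} (hx : b x = x) (hfp : ∀ y, Reach a b x y → a y ≠ y) :
    omega a b x ≠ x := by
  obtain ⟨m, hm⟩ := per_even ha hb hx hfp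
  have hn := per_pos ha hb x
  intro h
  have h1 : (b ∘ a)^[minimalPeriod (b ∘ a) x / 2] x = (b ∘ a)^[0] x := h
  have := (iterate_eq_iterate_iff_of_lt_minimalPeriod (by omega) hn).mp h1
  omega

theorem omega_omega {x : V} (hx : b x = x) (hfp : ∀ y, Reach a b x y → a y ≠ y) :
    omega a b (omega a b x) = x := by
  obtain ⟨m, hm⟩ := per_even ha hb hx hfp
  have h1 : minimalPeriod (b ∘ a) (omega a b x) = minimalPeriod (b ∘ a) x :=
    minimalPeriod_apply_iterate (per_mem ha hb x) _
  unfold omega at h1 ⊢
  rw [h1, ← iterate_add_apply]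
  have h2 : minimalPeriod (b ∘ a) x / 2 + minimalPeriod (b ∘ a) x / 2 =
      minimalPeriod (b ∘ a) x := by omega
  rw [h2, iterate_minimalPeriod]

theorem fix_unique {x y : V} (hx : b x = x) (h : Reach a b x y) (hy : b y = y) :
    y = x ∨ y = omega a b x := by
  obtain ⟨k, hk, rfl⟩ := reach_iff ha hb hx h
  rw [b_iter ha hb hx hk.le] at hy
  rcases Nat.eq_zero_or_pos k with h0 | h0
  · left; subst h0; rfl
  · right
    have := (iterate_eq_iterate_iff_of_lt_minimalPeriod (by omega) hk).mp hy
    unfold omega
    congr 1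
    omega

end omega

/-! ### Fixed point free involutions on sets -/

/-- `K` is a fixed point free involution of the set `A`. -/
structure Inv (A : Set V) (K : V → V) : Prop where
  maps : ∀ x ∈ A, K x ∈ A
  invol : ∀ x ∈ A, K (K x) = x
  ne : ∀ x ∈ A, K x ≠ x

/-- The union of the two pairings is connected on `A`. -/
def Conn (A : Set V) (K M : V → V) : Prop := ∀ x ∈ A, ∀ y ∈ A, Reach K M x y

/-- every pairing of `A` is completed to a single cycle by a matching made of `E`-edges -/
def FinkP (A : Set V) (E : V → V → Prop) : Prop :=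
  ∀ K : V → V, Inv A K → ∃ M : V → V, Inv A M ∧ (∀ x ∈ A, E x (M x)) ∧ Conn A K M

theorem even_of_inv [Finite V] {A : Set V} {K : V → V} (h : Inv A K) : Even A.ncard := by
  classical
  cases nonempty_fintype V
  have h1 : ∑ x ∈ A.toFinset, (1 : ZMod 2) = 0 := by
    refine Finset.sum_involution (fun x _ => K x) ?_ ?_ ?_ ?_
    · intro x _; decide
    · intro x hx _; exact h.ne x (by simpa using hx)
    · intro x hx; simpa using h.maps x (by simpa using hx)
    · intro x hx; exact h.invol x (by simpa using hx)
  rw [Finset.sum_const, nsmul_eq_mul, mul_one, ZMod.natCast_eq_zero_iff_even] at h1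
  rwa [Set.ncard_eq_toFinset_card']

theorem exists_inv_of_even [Finite V] {A : Set V} (h : Even A.ncard) : ∃ K : V → V, Inv A K := by
  classical
  obtain ⟨m, hm⟩ := h
  have hc : Nat.card A = Nat.card (Fin m × Bool) := by
    rw [Nat.card_coe_set_eq, hm]; simp; omega
  obtain ⟨e⟩ := Finite.card_eq.mp hc
  refine ⟨fun x => if hx : x ∈ A then (e.symm ((e ⟨x, hx⟩).1, !(e ⟨x, hx⟩).2) : A) else x, ?_, ?_, ?_⟩
  · intro x hx
    simp only [hx, dif_pos]
    exact Subtype.coe_prop _
  · intro x hx
    simp [hx]
  · intro x hx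
    simp only [hx, dif_pos]
    intro h
    have h1 : e.symm ((e ⟨x, hx⟩).1, !(e ⟨x, hx⟩).2) = ⟨x, hx⟩ := Subtype.ext h
    rw [Equiv.symm_apply_eq] at h1
    have h2 := congrArg Prod.snd h1
    simp at h2

/-- the reduction step -/
theorem step [Finite V] {E : V → V → Prop} {A B : Set V} (hd : ∀ x, x ∈ A → x ∉ B)
    (hBe : Even B.ncard) (hF : FinkP B E) {K : V → V} (hK : Inv (A ∪ B) K)
    (hX : ∃ x ∈ B, K x ∈ A) :
    ∃ MB K' : V → V, Inv B MB ∧ (∀ x ∈ B, E x (MB x)) ∧ Inv A K' ∧
      (∀ x ∈ A, K x ∈ A → K' x = K x) ∧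
      ∀ (MA M : V → V), Inv A MA → Conn A K' MA → (∀ x ∈ A, M x = MA x) → (∀ x ∈ B, M x = MB x) →
        Conn (A ∪ B) K M := by
  classical
  set X : Set V := {x | x ∈ B ∧ K x ∈ A} with hXdef
  have hXB : X ⊆ B := fun x hx => hx.1
  -- internal part
  have hint : Inv (B \ X) K := by
    refine ⟨?_, ?_, ?_⟩
    · rintro x ⟨hxB, hxX⟩
      have h1 := hK.maps x (Or.inr hxB)
      have h2 : K x ∉ A := fun h => hxX ⟨hxB, h⟩
      have h3 : K x ∈ B := h1.resolve_left h2
      refine ⟨h3, fun h => ?_⟩
      have h4 := h.2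
      rw [hK.invol x (Or.inr hxB)] at h4
      exact hd x h4 hxB
    · rintro x ⟨hxB, _⟩; exact hK.invol x (Or.inr hxB)
    · rintro x ⟨hxB, _⟩; exact hK.ne x (Or.inr hxB)
  have hXe : Even X.ncard := by
    have h1 := even_of_inv hint
    have h2 : (B \ X).ncard + X.ncard = B.ncard := Set.ncard_diff_add_ncard_of_subset hXB
    rw [← h2] at hBe
    exact (Nat.even_add.mp hBe).mp h1
  obtain ⟨π, hπ⟩ := exists_inv_of_even hXe
  set KB : V → V := fun x => if x ∈ X then π x else K x with hKB
  have hKBinv : Inv B KB := by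
    refine ⟨?_, ?_, ?_⟩
    · intro x hx
      by_cases h : x ∈ X
      · simp only [hKB, h, if_true]; exact hXB (hπ.maps x h)
      · simp only [hKB, h, if_false]; exact (hint.maps x ⟨hx, h⟩).1
    · intro x hx
      by_cases h : x ∈ X
      · simp only [hKB, h, if_true, hπ.maps x h]; exact hπ.invol x h
      · simp only [hKB, h, if_false, (hint.maps x ⟨hx, h⟩).2]; exact hK.invol x (Or.inr hx)
    · intro x hx
      by_cases h : x ∈ X
      · simp only [hKB, h, if_true]; exact hπ.ne x h
      · simp only [hKB, h, if_false]; exact hK.ne x (Or.inr hx)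
  obtain ⟨MB, hMB, hMBE, hMBc⟩ := hF KB hKBinv
  -- total involutions
  set a : V → V := fun x => if x ∈ B then MB x else x with ha_def
  set b : V → V := fun x => if x ∈ B ∧ x ∉ X then K x else x with hb_def
  have ha : ∀ x, a (a x) = x := by
    intro x
    by_cases h : x ∈ B
    · simp only [ha_def, h, if_true, hMB.maps x h]; exact hMB.invol x h
    · simp only [ha_def, h, if_false]
  have hb : ∀ x, b (b x) = x := by
    intro x
    by_cases h : x ∈ B ∧ x ∉ X
    · have h1 := hint.maps x h
      have h2 : K x ∈ B ∧ K x ∉ X := h1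
      simp only [hb_def, h, h2, if_true, not_false_eq_true, and_self]
      exact hK.invol x (Or.inr h.1)
    · simp only [hb_def, h, if_false]
  have hBcl : ∀ x y, x ∈ B → Reach a b x y → y ∈ B := by
    intro x y hx h
    induction h with
    | refl => exact hx
    | @tail u v _ h ih =>
      rcases h with h | h
      · rw [h]; simp only [ha_def, ih, if_true]; exact hMB.maps _ ih
      · rw [h]
        by_cases h1 : u ∈ B ∧ u ∉ X
        · simp only [hb_def, h1, if_true, not_false_eq_true, and_self]; exact (hint.maps u h1).1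
        · simp only [hb_def, h1, if_false]; exact ih
  have hfp : ∀ x, x ∈ B → ∀ y, Reach a b x y → a y ≠ y := by
    intro x hx y h
    have hy := hBcl x y hx h
    simp only [ha_def, hy, if_true]
    exact hMB.ne y hy
  have hXfix : ∀ x ∈ X, b x = x := by
    intro x hx
    have : ¬ (x ∈ B ∧ x ∉ X) := fun h => h.2 hx
    simp only [hb_def, this, if_false]
  have hfixX : ∀ x ∈ B, b x = x → x ∈ X := by
    intro x hx h
    by_contra hne
    have h1 : x ∈ B ∧ x ∉ X := ⟨hx, hne⟩
    simp only [hb_def, h1, if_true, not_false_eq_true, and_self] at h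
    exact hK.ne x (Or.inr hx) h
  have homX : ∀ x ∈ X, omega a b x ∈ X := by
    intro x hx
    refine hfixX _ (hBcl x _ (hXB hx) (reach_omega x)) ?_
    exact omega_fix ha hb (hXfix x hx) (hfp x (hXB hx))
  have homne : ∀ x ∈ X, omega a b x ≠ x := fun x hx =>
    omega_ne ha hb (hXfix x hx) (hfp x (hXB hx))
  have homom : ∀ x ∈ X, omega a b (omega a b x) = x := fun x hx =>
    omega_omega ha hb (hXfix x hx) (hfp x (hXB hx))
  have hKAX : ∀ y ∈ A, K y ∉ A → K y ∈ X := by
    intro y hy h
    have h1 := (hK.maps y (Or.inl hy)).resolve_left h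
    exact ⟨h1, by rw [hK.invol y (Or.inl hy)]; exact hy⟩
  set K' : V → V := fun y => if K y ∈ A then K y else K (omega a b (K y)) with hK'
  have hK'inv : Inv A K' := by
    refine ⟨?_, ?_, ?_⟩
    · intro y hy
      by_cases h : K y ∈ A
      · simp only [hK', h, if_true]
      · simp only [hK', h, if_false]
        exact (homX _ (hKAX y hy h)).2
    · intro y hy
      by_cases h : K y ∈ A
      · have h2 : K (K y) = y := hK.invol y (Or.inl hy)
        simp only [hK', h, if_true, h2, hy]
      · have h1 := hKAX y hy h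
        have h2 := homX _ h1
        have h3 : K (K (omega a b (K y))) = omega a b (K y) := hK.invol _ (Or.inr h2.1)
        have h4 : omega a b (K y) ∉ A := fun h5 => hd _ h5 h2.1
        simp only [hK', h, if_false, h3, h4]
        rw [homom _ h1]
        exact hK.invol y (Or.inl hy)
    · intro y hy
      by_cases h : K y ∈ A
      · simp only [hK', h, if_true]; exact hK.ne y (Or.inl hy)
      · simp only [hK', h, if_false]
        intro h5
        have h1 := hKAX y hy h
        have h2 := homX _ h1
        apply homne _ h1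
        have h3 : K (K (omega a b (K y))) = omega a b (K y) := hK.invol _ (Or.inr h2.1)
        rw [← h3, h5]
  refine ⟨MB, K', hMB, hMBE, hK'inv, ?_, ?_⟩
  · intro x _ h
    simp only [hK', h, if_true]
  · intro MA M hMA hconn hMA' hMB'
    -- reach in `a`,`b` inside `B` gives reach in `K`,`M`
    have hR1 : ∀ x y, x ∈ B → Reach a b x y → Reach K M x y := by
      intro x y hx h
      have hcl := hBcl x
      induction h with
      | refl => exact .refl
      | @tail u v hu h ih =>
        have huB := hcl u hx hu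
        rcases h with h | h
        · refine ih.tail (Or.inr ?_)
          rw [h, hMB' u huB]
          simp only [ha_def, huB, if_true]
        · by_cases h1 : u ∈ B ∧ u ∉ X
          · refine ih.tail (Or.inl ?_)
            rw [h]
            simp only [hb_def, h1, if_true, not_false_eq_true, and_self]
          · have : v = u := by rw [h]; simp only [hb_def, h1, if_false]
            rw [this]; exact ih
    have hR2 : ∀ y ∈ A, Reach K M y (K' y) := by
      intro y hy
      by_cases h : K y ∈ A
      · have : K' y = K y := by simp only [hK', h, if_true]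
        rw [this]
        exact .single (Or.inl rfl)
      · have : K' y = K (omega a b (K y)) := by simp only [hK', h, if_false]
        rw [this]
        have h1 := hKAX y hy h
        refine Relation.ReflTransGen.head (Or.inl rfl) ?_
        refine Relation.ReflTransGen.tail (hR1 _ _ h1.1 (reach_omega (K y))) (Or.inl rfl)
    have hR3 : ∀ x ∈ A, ∀ y, Reach K' MA x y → Reach K M x y ∧ y ∈ A := by
      intro x hx y h
      induction h with
      | refl => exact ⟨.refl, hx⟩
      | @tail u v _ h ih =>
        obtain ⟨ih1, ih2⟩ := ih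
        rcases h with h | h
        · rw [h]; exact ⟨ih1.trans (hR2 u ih2), hK'inv.maps u ih2⟩
        · refine ⟨ih1.tail (Or.inr ?_), ?_⟩
          · rw [h, hMA' u ih2]
          · rw [h]; exact hMA.maps u ih2
    have hR4 : ∀ x ∈ A, ∀ y ∈ A, Reach K M x y := fun x hx y hy =>
      (hR3 x hx y (hconn x hx y hy)).1
    obtain ⟨x0, hx0B, hx0A⟩ := hX
    have hx0 : x0 ∈ X := ⟨hx0B, hx0A⟩
    -- from any point of `B` one reaches `X`
    have hR5 : ∀ z ∈ B, ∃ x ∈ X, Reach K M z x := by
      intro z hz
      have h := hMBc z hz x0 hx0B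
      revert hz
      induction h using Relation.ReflTransGen.head_induction_on with
      | refl => intro _; exact ⟨x0, hx0, .refl⟩
      | @head u v h _ ih =>
        intro hu
        by_cases huX : u ∈ X
        · exact ⟨u, huX, .refl⟩
        · have hv : v ∈ B := by
            rcases h with h | h
            · rw [h]; exact hKBinv.maps u hu
            · rw [h]; exact hMB.maps u hu
          obtain ⟨x, hx, hr⟩ := ih hv
          refine ⟨x, hx, Relation.ReflTransGen.head ?_ hr⟩
          rcases h with h | h
          · left; rw [h]; simp only [hKB, huX, if_false]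
          · right; rw [h, hMB' u hu]
    have hR6 : ∀ z ∈ A ∪ B, ∃ y ∈ A, Reach K M z y := by
      rintro z (hz | hz)
      · exact ⟨z, hz, .refl⟩
      · obtain ⟨x, hx, hr⟩ := hR5 z hz
        exact ⟨K x, hx.2, hr.tail (Or.inl rfl)⟩
    -- symmetry on `A ∪ B`
    have hMinv : Inv (A ∪ B) M := by
      refine ⟨?_, ?_, ?_⟩
      · rintro z (hz | hz)
        · left; rw [hMA' z hz]; exact hMA.maps z hz
        · right; rw [hMB' z hz]; exact hMB.maps z hz
      · rintro z (hz | hz)
        · rw [hMA' z hz, hMA' _ (hMA.maps z hz)]; exact hMA.invol z hz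
        · rw [hMB' z hz, hMB' _ (hMB.maps z hz)]; exact hMB.invol z hz
      · rintro z (hz | hz)
        · rw [hMA' z hz]; exact hMA.ne z hz
        · rw [hMB' z hz]; exact hMB.ne z hz
    have hsymm : ∀ x ∈ A ∪ B, ∀ y, Reach K M x y → Reach K M y x ∧ y ∈ A ∪ B := by
      intro x hx y h
      induction h with
      | refl => exact ⟨.refl, hx⟩
      | @tail u v _ h ih =>
        obtain ⟨ih1, ih2⟩ := ih
        rcases h with h | h
        · refine ⟨Relation.ReflTransGen.head (Or.inl ?_) ih1, ?_⟩
          · rw [h]; exact (hK.invol u ih2).symm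
          · rw [h]; exact hK.maps u ih2
        · refine ⟨Relation.ReflTransGen.head (Or.inr ?_) ih1, ?_⟩
          · rw [h]; exact (hMinv.invol u ih2).symm
          · rw [h]; exact hMinv.maps u ih2
    intro x hx y hy
    obtain ⟨x', hx', hrx⟩ := hR6 x hx
    obtain ⟨y', hy', hry⟩ := hR6 y hy
    exact (hrx.trans (hR4 x' hx' y' hy')).trans (hsymm y hy y' hry).1

end Pool.Agent.Helper886.HCube
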